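import Pool.Agent.P.MP_e0c037_lc.Sign

/-! Construction of the graded system of self-dual intervals. -/

namespace Pool.Agent.P.MP_e0c037_lc

/-- Upper end of the self-dual interval. -/
noncomputable def Bf (q a : ℝ) : ℝ := 1 - q / (1 + a)

/-- The self-dual interval. -/
def In (q a v : ℝ) : Prop := Vw a (Bf q a) v

variable {q a a' v w : ℝ}

theorem Bf_mono (hq : 0 < q) (ha : 0 ≤ a) (h : a ≤ a') : Bf q a ≤ Bf q a' := by
  unfold Bf
  have := div_le_div_of_nonneg_left hq.le (by linarith : 0 < 1 + a) (by linarith : 1 + a ≤ 1 + a')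
  linarith

theorem Bf_lt (hq : 0 < q) (ha : 0 ≤ a) : Bf q a < 1 := by
  unfold Bf
  have := div_pos hq (by linarith : 0 < 1 + a)
  linarith

theorem Bf_mul (ha : 0 ≤ a) : Bf q a * (1 + a) = 1 + a - q := by
  unfold Bf
  have : 1 + a ≠ 0 := by linarith
  field_simp

theorem Bf_lip (hq : 0 < q) (hq2 : q ≤ 2) {η : ℝ} (hη : 0 ≤ η) (ha : η ≤ a) :
    Bf q a - 2 * η ≤ Bf q (a - η) := by
  have h1 := Bf_mul (q := q) (a := a) (by linarith)
  have h2 := Bf_mul (q := q) (a := a - η) (by linarith)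
  have h3 : (Bf q a - Bf q (a - η)) * ((1 + a) * (1 + (a - η))) = q * η := by
    linear_combination (1 + (a - η)) * h1 - (1 + a) * h2
  have h4 : 1 ≤ (1 + a) * (1 + (a - η)) := by nlinarith
  have h5 : 0 ≤ Bf q a - Bf q (a - η) := by
    have := Bf_mono (a := a - η) (a' := a) hq (by linarith) (by linarith); linarith
  nlinarith

theorem In.mono (hq : 0 < q) (ha : 0 ≤ a) (h : a ≤ a') (hv : In q a v) : In q a' v :=
  ⟨by linarith [hv.1], hv.2.trans (Bf_mono hq ha h)⟩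

theorem In.neg (hq : 0 < q) (ha : 0 ≤ a) (hv : In q a v) : v < 0 := by
  have := Bf_lt hq ha; linarith [hv.2]

theorem In.dual (hq : 0 < q) (ha : 0 ≤ a) (hv : In q a v) : In q a (q / v) := by
  have hn := hv.neg hq ha
  have h1 := Bf_mul (q := q) ha
  obtain ⟨v1, v2⟩ := hv
  constructor
  · have : -(1 + a) ≤ q / v := by
      rw [le_div_iff_of_neg hn]; nlinarith
    linarith
  · unfold Bf
    have : q / v ≤ -(q / (1 + a)) := by
      rw [div_le_iff_of_neg hn, neg_mul, div_mul_eq_mul_div, neg_le, le_div_iff₀ (by linarith)]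
      nlinarith
    linarith

theorem ser_of_par {c d : ℝ} (hq : 0 < q) (ha : 0 ≤ a) (hc : 0 ≤ c) (hd : 0 ≤ d)
    (hp : ∀ v w, In q a v → In q c w → In q d (v + w + v * w)) (hv : In q a v) (hw : In q c w) :
    q + v + w < 0 ∧ In q d (v * w / (q + v + w)) := by
  have h1 := hp _ _ (hv.dual hq ha) (hw.dual hq hc)
  have n1 := hv.neg hq ha
  have n2 := hw.neg hq hc
  have e1 : q / v + q / w + q / v * (q / w) = q * (q + v + w) / (v * w) := by
    have := n1.ne; have := n2.ne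
    field_simp; ring
  rw [e1] at h1
  have n3 := h1.neg hq hd
  rw [div_neg_iff] at n3
  have n4 : q + v + w < 0 := by
    rcases n3 with ⟨-, h⟩ | ⟨h, -⟩
    · nlinarith [mul_pos_of_neg_of_neg n1 n2]
    · by_contra hh; nlinarith
  refine ⟨n4, ?_⟩
  have h2 := h1.dual hq hd
  have e2 : q / (q * (q + v + w) / (v * w)) = v * w / (q + v + w) := by
    have := n1.ne; have := n2.ne; have := n4.ne; have := hq.ne'
    field_simp
  rwa [e2] at h2

theorem prod_bounds {x y a A c C L U : ℝ} (ha : 0 ≤ a) (hA : 0 ≤ A) (hc : 0 ≤ c) (hC : 0 ≤ C)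
    (x1 : -a ≤ x) (x2 : x ≤ A) (y1 : -c ≤ y) (y2 : y ≤ C) (l1 : a * C ≤ L) (l2 : A * c ≤ L)
    (u1 : a * c ≤ U) (u2 : A * C ≤ U) : -L ≤ x * y ∧ x * y ≤ U := by
  have := mul_nonneg ha hc
  have := mul_nonneg ha hC
  rcases le_total 0 x with hx | hx <;> rcases le_total 0 y with hy | hy
  · exact ⟨by nlinarith [mul_nonneg hx hy], by nlinarith [mul_le_mul x2 y2 hy hA]⟩
  · exact ⟨by nlinarith [mul_le_mul x2 (by linarith : -y ≤ c) (by linarith) hA],
      by nlinarith [mul_nonneg hx (neg_nonneg.2 hy)]⟩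
  · exact ⟨by nlinarith [mul_le_mul (by linarith : -x ≤ a) y2 hy ha],
      by nlinarith [mul_nonneg (neg_nonneg.2 hx) hy]⟩
  · exact ⟨by nlinarith [mul_nonneg (neg_nonneg.2 hx) (neg_nonneg.2 hy)],
      by nlinarith [mul_le_mul (by linarith : -x ≤ a) (by linarith : -y ≤ c) (by linarith) ha]⟩

theorem par_in {c d : ℝ} (ha : 0 ≤ a) (hA : 0 ≤ Bf q a) (hc : 0 ≤ c) (hC : 0 ≤ Bf q c)
    (l1 : a * Bf q c ≤ d) (l2 : Bf q a * c ≤ d) (u1 : a * c ≤ Bf q d)
    (u2 : Bf q a * Bf q c ≤ Bf q d) (hv : In q a v) (hw : In q c w) :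
    In q d (v + w + v * w) := by
  obtain ⟨h1, h2⟩ := prod_bounds ha hA hc hC hv.1 hv.2 hw.1 hw.2 l1 l2 u1 u2
  constructor <;> linarith

theorem sq_lt_Bf {r t : ℝ} (hr : q = (1 + r) ^ 2 * (1 - r)) (h1 : 1 / 3 < t) (h2 : t < r) :
    q < (1 + t) ^ 2 * (1 - t) := by
  have : 0 < (r - t) * (-1 + (t + r) + (t ^ 2 + t * r + r ^ 2)) :=
    mul_pos (by linarith) (by nlinarith)
  rw [hr]; linarith

theorem gaps {ρ s : ℝ} (hq : 0 < q) (hρ : 0 < ρ) (hs : 0 < s) (h1 : ρ ^ 2 < Bf q ρ)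
    (h2 : 0 < Bf q s) (h3 : ρ * s < Bf q s) (h4 : ∀ a, s ≤ a → ρ * (1 + a - q) < a * (1 + a)) :
    ∃ η, 0 < η ∧ η ≤ s ∧ ∀ a, s ≤ a → a ≤ ρ → a * Bf q ρ ≤ a - η ∧ Bf q a * ρ ≤ a - η ∧
      a * ρ ≤ Bf q a - 2 * η ∧ Bf q a * Bf q ρ ≤ Bf q a - 2 * η := by
  have hb := Bf_lt hq hρ.le
  have hc : ContinuousOn (Bf q) (Set.Icc s ρ) := by
    unfold Bf
    refine continuousOn_const.sub (continuousOn_const.div (by fun_prop) fun x hx => ?_)
    have := hx.1; linarith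
  have g2 : ∀ a ∈ Set.Icc s ρ, 0 < a - Bf q a * ρ := fun a ha => by
    have a1 := h4 a ha.1
    have a2 := Bf_mul (q := q) (a := a) (by linarith [ha.1])
    have a3 : 0 < 1 + a := by linarith [ha.1]
    refine pos_of_mul_pos_left (b := 1 + a) ?_ a3.le
    nlinarith
  have g3 : ∀ a ∈ Set.Icc s ρ, 0 < Bf q a - a * ρ := fun a ha => by
    have a2 := Bf_mul (q := q) (a := a) (by linarith [ha.1])
    have a3 : 0 < 1 + a := by linarith [ha.1]
    have a4 := Bf_mul (q := q) hs.le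
    have a5 := Bf_mul (q := q) hρ.le
    have b1 : 0 < 1 + s - q - ρ * s * (1 + s) := by nlinarith
    have b2 : 0 < 1 + ρ - q - ρ * ρ * (1 + ρ) := by nlinarith
    refine pos_of_mul_pos_left (b := 1 + a) ?_ a3.le
    have b3 : 0 < 1 + a - q - ρ * a * (1 + a) := by
      rcases eq_or_lt_of_le ha.1 with h | h
      · rwa [← h]
      · have t1 := mul_nonneg (sub_nonneg.2 ha.2) b1.le
        have t2 := mul_pos (sub_pos.2 h) b2
        have t3 := mul_nonneg (mul_nonneg hρ.le (sub_nonneg.2 (ha.1.trans ha.2)))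
          (mul_nonneg (sub_nonneg.2 ha.1) (sub_nonneg.2 ha.2))
        refine pos_of_mul_pos_left (b := ρ - s) ?_ (sub_nonneg.2 (ha.1.trans ha.2))
        nlinarith
    nlinarith
  obtain ⟨η2, p2, k2⟩ := isCompact_Icc.exists_forall_le'
    (f := fun a => a - Bf q a * ρ) (continuousOn_id.sub (hc.mul continuousOn_const)) g2
  obtain ⟨η3, p3, k3⟩ := isCompact_Icc.exists_forall_le'
    (f := fun a => Bf q a - a * ρ) (hc.sub (continuousOn_id.mul continuousOn_const)) g3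
  have p1 : 0 < s * (1 - Bf q ρ) := mul_pos hs (by linarith)
  have p4 : 0 < Bf q s * (1 - Bf q ρ) := mul_pos h2 (by linarith)
  refine ⟨min (min s (s * (1 - Bf q ρ))) (min η2 (min (η3 / 2) (Bf q s * (1 - Bf q ρ) / 2))),
    by positivity, (min_le_left _ _).trans (min_le_left _ _), fun a a1 a2 => ?_⟩
  set η := min (min s (s * (1 - Bf q ρ))) (min η2 (min (η3 / 2) (Bf q s * (1 - Bf q ρ) / 2)))
  have e1 : η ≤ s * (1 - Bf q ρ) := (min_le_left _ _).trans (min_le_right _ _)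
  have e2 : η ≤ η2 := (min_le_right _ _).trans (min_le_left _ _)
  have e3 : η ≤ η3 / 2 := (min_le_right _ _).trans ((min_le_right _ _).trans (min_le_left _ _))
  have e4 : η ≤ Bf q s * (1 - Bf q ρ) / 2 :=
    (min_le_right _ _).trans ((min_le_right _ _).trans (min_le_right _ _))
  have f2 := k2 a ⟨a1, a2⟩
  have f3 := k3 a ⟨a1, a2⟩
  have f4 := Bf_mono hq hs.le a1
  refine ⟨by nlinarith, by linarith, by linarith, by nlinarith⟩

theorem sys_of {ρ ρ' s ε : ℝ} (hq : 0 < q) (hq2 : q ≤ 2) (hρ : 0 < ρ) (hρ' : ρ < ρ') (h1' : ρ' < 1)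
    (hs : 0 < s) (h1 : ρ ^ 2 < Bf q ρ) (h1'' : ρ' ^ 2 < Bf q ρ')
    (h2 : 0 < Bf q s) (h3 : ρ * s < Bf q s) (h4 : ∀ a, s ≤ a → ρ * (1 + a - q) < a * (1 + a))
    (he : ε = 1 ∨ ε = -1) (hc : 0 < ε * (1 - q))
    (htop : ∀ v y, In q s v → -ρ' ≤ y → y ≤ Bf q ρ' → ε * (1 + v) * y ≤ ε * (1 - q)) :
    ∃ J I, Sys q ρ' (Bf q ρ') ε J I ∧ I 0 = In q ρ := by
  obtain ⟨η, hη, hηs, hg⟩ := gaps hq hρ hs h1 h2 h3 h4
  have r0 : 0 ≤ ρ' := by linarith
  have b0 : 0 ≤ Bf q ρ' := by nlinarith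
  have b0' : 0 ≤ Bf q ρ := by nlinarith
  have b1 := Bf_lt hq r0
  have hpar : ∀ v w, In q ρ' v → In q ρ' w → In q ρ' (v + w + v * w) := fun v w hv hw =>
    par_in r0 b0 r0 b0 (by nlinarith) (by nlinarith) (by nlinarith) (by nlinarith) hv hw
  have lt1 : ∀ g < ⌈(ρ - s) / η⌉₊, s < ρ - g * η := fun g hg => by
    rw [Nat.lt_ceil, lt_div_iff₀ hη] at hg; linarith
  have le1 : ∀ g : ℕ, ρ - g * η ≤ ρ := fun g => by
    have : 0 ≤ g * η := by positivity
    linarith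
  have ge0 : ∀ g ≤ ⌈(ρ - s) / η⌉₊, 0 ≤ ρ - g * η := fun g hg => by
    rcases g with _ | g
    · simp [hρ.le]
    · have := lt1 g hg; push_cast; linarith
  have key : ∀ g < ⌈(ρ - s) / η⌉₊, ∀ v w, In q (ρ - g * η) v → In q ρ w →
      In q (ρ - (g + 1 : ℕ) * η) (v + w + v * w) := fun g hg' v w hv hw => by
    have a1 := lt1 g hg'
    obtain ⟨c1, c2, c3, c4⟩ := hg _ a1.le (le1 g)
    have c5 := Bf_lip (a := ρ - g * η) hq hq2 hη.le (by linarith)
    have e : ρ - (g + 1 : ℕ) * η = ρ - g * η - η := by push_cast; ring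
    rw [e]
    exact par_in (by linarith) (h2.le.trans (Bf_mono hq hs.le a1.le)) hρ.le b0' c1 c2
      (by linarith) (by linarith) hv hw
  have gpar : ∀ g < ⌈(ρ - s) / η⌉₊, ∀ h < ⌈(ρ - s) / η⌉₊, ∀ v w, In q (ρ - g * η) v →
      In q (ρ - h * η) w → In q (ρ - (max g h + 1 : ℕ) * η) (v + w + v * w) := by
    intro g hg' h hh v w hv hw
    rcases le_total h g with hgh | hgh
    · rw [max_eq_left hgh]
      exact key g hg' v w hv (hw.mono hq (ge0 h hh.le) (le1 h))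
    · rw [max_eq_right hgh, add_comm v w, mul_comm v w]
      exact key h hh w v hw (hv.mono hq (ge0 g hg'.le) (le1 g))
  refine ⟨⌈(ρ - s) / η⌉₊, fun g => In q (ρ - g * η), ⟨hq, he, hc, r0, h1', b0, b1, hpar,
    fun v w hv hw => ser_of_par hq r0 r0 r0 hpar hv hw,
    fun g hg' v hv => In.mono hq (ge0 g hg') ((le1 g).trans hρ'.le) hv, gpar,
    fun g hg' h hh v w hv hw => (ser_of_par hq (ge0 g hg'.le) (ge0 h hh.le)
      (ge0 _ (Nat.succ_le_of_lt (max_lt hg' hh))) (gpar g hg' h hh) hv hw).2,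
    fun v y hv => htop v y (hv.mono hq (ge0 _ le_rfl) ?_)⟩, by simp⟩
  have := Nat.le_ceil ((ρ - s) / η)
  rw [div_le_iff₀ hη] at this
  linarith

theorem sys_exists {r ρ ρ' : ℝ} (hr : q = (1 + r) ^ 2 * (1 - r)) (hq1 : q ≠ 1) (h3 : 1 / 3 < ρ)
    (hρ : ρ < ρ') (hρ' : ρ' < r) (hr1 : r < 1) :
    ∃ J I, Sys q ρ' (Bf q ρ') (SignType.sign (1 - q) : ℝ) J I ∧ I 0 = In q ρ := by
  have hq : 0 < q := by rw [hr]; exact mul_pos (pow_pos (by linarith) 2) (by linarith)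
  have hq2 : q ≤ 2 := by rw [hr]; nlinarith [mul_pos (by linarith : 0 < r) (by linarith : 0 < r)]
  have t1 := sq_lt_Bf hr h3 (hρ.trans hρ')
  have t2 := sq_lt_Bf hr (h3.trans hρ) hρ'
  have m1 := Bf_mul (q := q) (a := ρ) (by linarith)
  have m2 := Bf_mul (q := q) (a := ρ') (by linarith)
  have s1 : ρ ^ 2 < Bf q ρ := by
    refine lt_of_mul_lt_mul_right (a := 1 + ρ) ?_ (by linarith); nlinarith
  have s2 : ρ' ^ 2 < Bf q ρ' := by
    refine lt_of_mul_lt_mul_right (a := 1 + ρ') ?_ (by linarith); nlinarith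
  have r0 : 0 < ρ' := by linarith
  have b0 : 0 < Bf q ρ' := by nlinarith
  have b1 := Bf_lt hq r0.le
  rcases lt_or_gt_of_ne hq1 with hlt | hgt
  · have hc : 0 < 1 - q := by linarith
    have hs : 0 < (1 - q) / ρ' := div_pos hc r0
    have e1 : (1 - q) / ρ' * ρ' = 1 - q := div_mul_cancel₀ _ r0.ne'
    have e2 : Bf q ((1 - q) / ρ') * Bf q ρ' = 1 - q := by
      unfold Bf
      have : 1 + ρ' ≠ 0 := by linarith
      have : ρ' + (1 - q) ≠ 0 := by linarith
      have : ρ' ≠ 0 := by linarith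
      field_simp; ring
    generalize (1 - q) / ρ' = s at hs e1 e2
    have bs : 0 < Bf q s := by by_contra hh; nlinarith
    rw [sign_pos hc]
    refine sys_of (s := s) hq hq2 (by linarith) hρ (by linarith) hs s1 s2 bs ?_ ?_ (Or.inl rfl)
      (by simpa) ?_
    · nlinarith
    · intro a ha
      have a1 : 0 < 1 + s - ρ - ρ * ρ' := by
        refine pos_of_mul_pos_left (b := ρ') ?_ r0.le
        nlinarith
      nlinarith [mul_pos hs a1, mul_nonneg (sub_nonneg.2 ha) (by linarith : 0 ≤ a + s + 1 - ρ)]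
    · intro v y hv y1 y2
      have := (prod_bounds (L := s * Bf q ρ' + Bf q s * ρ') (U := 1 - q) hs.le bs.le r0.le b0.le
        hv.1 hv.2 y1 y2 (by linarith [mul_pos bs r0]) (by linarith [mul_pos hs b0]) e1.le e2.le).2
      simpa using this
  · have hc : 0 < q - 1 := by linarith
    have hs : 0 < (q - 1) / Bf q ρ' := div_pos hc b0
    have e1 : (q - 1) / Bf q ρ' * Bf q ρ' = q - 1 := div_mul_cancel₀ _ b0.ne'
    generalize (q - 1) / Bf q ρ' = s at hs e1
    have m3 := Bf_mul (q := q) hs.le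
    have e2 : Bf q s * ρ' = q - 1 := by
      have a1 : (1 + s) * Bf q ρ' * (1 + ρ') = q * ρ' := by
        linear_combination (1 + ρ') * e1 + m2
      refine mul_right_cancel₀ (b := (1 + s) * Bf q ρ' * (1 + ρ')) (by positivity) ?_
      linear_combination (ρ' * Bf q ρ' * (1 + ρ')) * m3 + (ρ' * (1 + ρ')) * e1 - (q - 1) * a1
        - (ρ' * (q - 1)) * m2
    have bs : 0 < Bf q s := by by_contra hh; nlinarith
    rw [sign_neg (by linarith : 1 - q < 0)]
    refine sys_of (s := s) hq hq2 (by linarith) hρ (by linarith) hs s1 s2 bs ?_ ?_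
      (Or.inr (by simp)) (by simpa) ?_
    · refine lt_of_mul_lt_mul_right (a := ρ' * Bf q ρ') ?_ (by positivity)
      have a1 : ρ * ρ' < Bf q ρ' := by nlinarith
      nlinarith [mul_lt_mul_of_pos_right a1 hc]
    · intro a ha
      nlinarith
    · intro v y hv y1 y2
      have := (prod_bounds (L := q - 1) (U := s * ρ' + Bf q s * Bf q ρ') hs.le bs.le r0.le b0.le
        hv.1 hv.2 y1 y2 e1.le e2.le (by linarith [mul_pos bs b0])
        (by linarith [mul_pos hs r0])).1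
      simp only [SignType.coe_neg_one]
      linarith

/-- The sign theorem for component counts. -/
theorem sign_diamond {r lo hi : ℝ} (hr : q = (1 + r) ^ 2 * (1 - r)) (hq1 : q ≠ 1) (h3 : 1 / 3 < r)
    (hr1 : r < 1) (hlo : -1 - r < lo) (hhi : hi < r ^ 2 - 1) :
    ∃ M : ℕ, ∀ (α : Type) [DecidableEq α] (k : Finset α → ℕ) (v : α → ℝ) (E : Finset α),
      IsK k → Conn k E → M ≤ E.card → (∀ e ∈ E, lo ≤ v e ∧ v e ≤ hi) →
      0 < (SignType.sign (1 - q) : ℝ) * (sg k E * Zk q k v E) := by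
  have hq : 0 < q := by rw [hr]; exact mul_pos (pow_pos (by linarith) 2) (by linarith)
  have hn : hi < 0 := by nlinarith
  have a1 : q / (-hi) - 1 < r := by
    rw [sub_lt_iff_lt_add, div_lt_iff₀ (by linarith), hr]; nlinarith
  obtain ⟨ρ, p1, p2⟩ := exists_between (max_lt h3 (max_lt (by linarith : -1 - lo < r) a1))
  obtain ⟨ρ', p3, p4⟩ := exists_between p2
  rw [max_lt_iff, max_lt_iff] at p1
  obtain ⟨p5, p6, p7⟩ := p1
  obtain ⟨J, I, S, hI⟩ := sys_exists hr hq1 p5 p3 p4 hr1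
  have r0 : 0 < ρ := by linarith
  have bl : Bf q ρ < Bf q ρ' := by
    unfold Bf
    have := div_lt_div_of_pos_left hq (by linarith : 0 < 1 + ρ) (by linarith : 1 + ρ < 1 + ρ')
    linarith
  have b1 := Bf_lt hq r0.le
  obtain ⟨M, hM⟩ := sign_large S (δ := min (ρ' - ρ) (Bf q ρ' - Bf q ρ))
    (lt_min (by linarith) (by linarith)) (by
      intro v hv
      rw [hI] at hv
      have d1 := min_le_left (ρ' - ρ) (Bf q ρ' - Bf q ρ)
      have d2 := min_le_right (ρ' - ρ) (Bf q ρ' - Bf q ρ)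
      have d0 : 0 < min (ρ' - ρ) (Bf q ρ' - Bf q ρ) := lt_min (by linarith) (by linarith)
      generalize min (ρ' - ρ) (Bf q ρ' - Bf q ρ) = δ at d0 d1 d2
      obtain ⟨v1, v2⟩ := hv
      constructor <;> nlinarith)
  refine ⟨M, fun α _ k v E h hc hE hv => hM α k v E h hc hE fun e he => ?_⟩
  rw [hI]
  obtain ⟨v1, v2⟩ := hv e he
  refine ⟨by linarith, ?_⟩
  unfold Bf
  have : q / (1 + ρ) ≤ -hi := by
    rw [sub_lt_iff_lt_add, div_lt_iff₀ (by linarith)] at p7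
    rw [div_le_iff₀ (by linarith)]; linarith
  linarith

theorem middle_root {w a c : ℝ} (hq : 0 < q) (haw : a < w) (hwc : w < c)
    (ha : a ^ 3 - 2 * q * a - q ^ 2 = 0) (hw : w ^ 3 - 2 * q * w - q ^ 2 = 0)
    (hc : c ^ 3 - 2 * q * c - q ^ 2 = 0) :
    ∃ r, q = (1 + r) ^ 2 * (1 - r) ∧ 1 / 3 < r ∧ r < 1 ∧ q / w = -1 - r ∧ w = r ^ 2 - 1 := by
  have e1 : a ^ 2 + a * w + w ^ 2 - 2 * q = 0 :=
    mul_left_cancel₀ (sub_ne_zero.2 haw.ne) (by linear_combination ha - hw)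
  have e2 : c ^ 2 + c * w + w ^ 2 - 2 * q = 0 :=
    mul_left_cancel₀ (sub_ne_zero.2 hwc.ne') (by linear_combination hc - hw)
  have e3 : a + c + w = 0 :=
    mul_left_cancel₀ (sub_ne_zero.2 (haw.trans hwc).ne) (by linear_combination e1 - e2)
  have e4 : 3 * w ^ 2 < 2 * q := by
    have := mul_pos (sub_pos.2 haw) (sub_pos.2 hwc)
    have e5 : c = -a - w := by linarith
    rw [e5] at this
    nlinarith
  have e5 : w < 0 := by by_contra hh; nlinarith
  obtain ⟨z, hz⟩ : ∃ z, z = q / w := ⟨_, rfl⟩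
  have e6 : q = z * w := by rw [hz, div_mul_cancel₀ _ e5.ne]
  have e7 : w = 2 * z + z ^ 2 := by
    refine mul_left_cancel₀ (pow_ne_zero 2 e5.ne) ?_
    rw [e6] at hw; linear_combination hw
  have e8 : z < 0 := by rw [hz]; exact div_neg_of_pos_of_neg hq e5
  refine ⟨-1 - z, by rw [e6, e7]; ring, ?_, ?_, by rw [← hz]; ring, by rw [e7]; ring⟩
  · have : 2 * z < 3 * w := by by_contra hh; nlinarith
    by_contra hh; nlinarith
  · by_contra hh; nlinarith

end Pool.Agent.P.MP_e0c037_lc
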