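import Pool.Agent.P.MP_e0c037_lc.Algo
import Pool.Agent.P.MP_e0c037_lc.Real

/-! The polynomial-time algorithm for the sign, given a sign rule for large connected parts. -/

namespace Pool.Agent.P.MP_e0c037_lc

open Pool.Agent.Lib.helper21 Finset

theorem encGraph_eq : encGraph = (Enc.enc : Inp → List Bool) := by
  funext G
  unfold encGraph
  have : ∀ L : List (ℕ × ℕ), L.foldr (fun e w => true :: encPair
      (encPair (List.replicate e.1 true) (List.replicate e.2 true)) w) [false] = Enc.enc L := by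
    intro L
    induction L with
    | nil => rfl
    | cons a l ih => exact congrArg (fun w => true :: pairW (Enc.enc a) w) ih
  rw [this]; rfl

/-- The ranks and sizes of all subsets of a small part. -/
def prof (M : ℕ) (G : Inp) (K : List ℕ) : List (ℕ × ℕ) :=
  (subs M K).map fun A => (G.1 - kk G A, A.length)

theorem prof_spec {G : Inp} (hG : Valid G) {M : ℕ} {K : List ℕ} (hK : K.Nodup)
    (hK' : ∀ i ∈ K, i < G.2.length) (hM : K.length ≤ M) {q : ℝ} (hq : 0 < q) (v : ℝ) :
    ((prof M G K).length ≤ 2 ^ M ∧ ∀ p ∈ prof M G K, p.1 ≤ M ∧ p.2 ≤ M) ∧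
    Zk q (comps G.1 G.2) (fun _ => v) K.toFinset =
      q ^ G.1 * ((prof M G K).map fun p => q⁻¹ ^ p.1 * v ^ p.2).sum := by
  have h := isK_comps G.1 G.2
  have key : ∀ A ∈ subs M K, kk G A = comps G.1 G.2 A.toFinset ∧ A.toFinset.card = A.length ∧
      A.length ≤ M := fun A hA => by
    have hs := subs_sub M K A hA
    exact ⟨kk_eq hG fun i hi => hK' i (hs.subset hi),
      List.toFinset_card_of_nodup (hK.sublist hs), hs.length_le.trans hM⟩
  refine ⟨⟨by simpa [prof] using subs_len M K, fun p hp => ?_⟩, ?_⟩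
  · obtain ⟨A, hA, rfl⟩ := List.mem_map.1 hp
    obtain ⟨a1, a2, a3⟩ := key A hA
    have := h.rank_le A.toFinset
    rw [comps_empty] at this
    constructor <;> dsimp only <;> omega
  · unfold Zk prof
    rw [← subs_sum M K _ hK hM, List.map_map, ← List.sum_map_mul_left]
    congr 1
    refine List.map_congr_left fun A hA => ?_
    obtain ⟨a1, a2, -⟩ := key A hA
    have a4 := h.anti (empty_subset A.toFinset)
    rw [comps_empty] at a4
    simp only [Function.comp, prod_const, a1, a2]
    obtain ⟨d, hd⟩ := Nat.exists_eq_add_of_le a4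
    generalize comps G.1 G.2 A.toFinset = c at hd
    rw [hd, Nat.add_sub_cancel_left, pow_add, inv_pow]
    have := (pow_pos hq d).ne'
    field_simp

theorem cast_prod (l : List SignType) :
    ((l.prod : SignType) : ℤ) = (l.map fun s : SignType => (s : ℤ)).prod := by
  induction l with
  | nil => rfl
  | cons a l ih => rw [List.prod_cons, SignType.coe_mul, ih]; rfl

theorem polytime_of {q v : ℝ} (hq : 0 < q) (s : SignType) (M : ℕ)
    (hM : ∀ (k : Finset ℕ → ℕ) (E : Finset ℕ), IsK k → Conn k E → M ≤ E.card →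
      0 < (s : ℝ) * (sg k E * Zk q k (fun _ => v) E)) :
    ∃ f : ℕ × List (ℕ × ℕ) → ℤ,
      Nonempty (Turing.TM2ComputableInPolyTime encGraph encInt f) ∧
      ∀ (n : ℕ) (L : List (ℕ × ℕ)), (∀ e ∈ L, e.1 < n ∧ e.2 < n) →
        f (n, L) = (SignType.sign (dichromatic n L q v) : ℤ) := by
  obtain ⟨g, hg1, hg2⟩ := pt_table
    (fun l => (SignType.sign (l.map fun p => q⁻¹ ^ p.1 * v ^ p.2).sum : ℤ))
    (finite_short (2 ^ M) M)
  have p1 := pt_parts
  have p2 := pt_subs M
  refine ⟨fun G => ((parts G).map fun K => cond (decide (M ≤ K.length))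
    ((s : ℤ) * (-1) ^ (G.1 + kk G K)) (g (prof M G K))).prod, ?_, fun n L hL => ?_⟩
  · rw [encGraph_eq]
    refine PT.toTM2 (β := ℤ) ?_
    unfold prof
    fun_prop
  have hG : Valid (n, L) := hL
  obtain ⟨h1, d⟩ := parts_inv hG L.length le_rfl
  have e1 : dichromatic n L q v = Zk q (comps n L) (fun _ => v) (range L.length) := by
    simp [dichromatic, Zk]
  rw [e1, d.sign (isK_comps _ _) hq, cast_prod, List.map_map, List.map_map]
  refine congrArg List.prod ?_
  refine List.map_congr_left fun K hK => ?_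
  obtain ⟨a1, a2, -⟩ := d.part _ (List.mem_map_of_mem hK)
  have a3 : ∀ i ∈ K, i < L.length := fun i hi => mem_range.1 (a1 (List.mem_toFinset.2 hi))
  simp only [Function.comp, Bool.cond_decide]
  split_ifs with hh
  · have b1 := hM _ _ (isK_comps n L) a2 (by rwa [List.toFinset_card_of_nodup (h1 K hK)])
    unfold sg at b1
    rw [kk_eq hG a3]
    rw [comps_empty] at b1
    generalize Zk q (comps n L) (fun _ => v) K.toFinset = z at b1
    generalize n + comps n L K.toFinset = m at b1
    rcases Nat.even_or_odd m with hm | hm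
    · rw [hm.neg_one_pow] at b1 ⊢
      rcases s with _ | _ | _
      · simp at b1
      · rw [sign_neg (by simpa using b1)]; rfl
      · rw [sign_pos (by simpa using b1)]; rfl
    · rw [hm.neg_one_pow] at b1 ⊢
      rcases s with _ | _ | _
      · simp at b1
      · rw [sign_pos (by simpa using b1)]; rfl
      · rw [sign_neg (by simpa using b1)]; rfl
  · obtain ⟨b1, b2⟩ := prof_spec hG (h1 K hK) a3 (le_of_not_ge hh) hq v
    rw [hg2 _ b1, b2, sign_mul, sign_pos (pow_pos hq _), one_mul]

theorem polytime_diamond {q w v : ℝ} (hq : q ∈ Set.Ioo (0 : ℝ) 1 ∪ Set.Ioo 1 (32 / 27))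
    (hw : IsMiddleRoot q w) (h1 : q / w < v) (h2 : v < w) :
    ∃ f : ℕ × List (ℕ × ℕ) → ℤ,
      Nonempty (Turing.TM2ComputableInPolyTime encGraph encInt f) ∧
      ∀ (n : ℕ) (L : List (ℕ × ℕ)), (∀ e ∈ L, e.1 < n ∧ e.2 < n) →
        f (n, L) = (SignType.sign (dichromatic n L q v) : ℤ) := by
  have hq0 : 0 < q := by rcases hq with h | h <;> linarith [h.1]
  have hq1 : q ≠ 1 := by
    rcases hq with h | h
    · exact h.2.ne
    · exact h.1.ne'
  obtain ⟨hw, a, c, a1, a2, a3, a4⟩ := hw
  obtain ⟨r, r1, r2, r3, r4, r5⟩ := middle_root hq0 a1 a2 a3 hw a4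
  obtain ⟨M, hM⟩ := sign_diamond (lo := v) (hi := v) r1 hq1 r2 r3 (r4 ▸ h1) (r5 ▸ h2)
  exact polytime_of hq0 _ M fun k E h hc hE => hM ℕ k _ E h hc hE fun _ _ => ⟨le_rfl, le_rfl⟩

end Pool.Agent.P.MP_e0c037_lc
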