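import Pool.Agent.P.MP_e0c037_lc.Z

/-! Separators and the decomposition into connected parts. -/

set_option linter.unusedSectionVars false

namespace Pool.Agent.P.MP_e0c037_lc

open Finset

variable {α : Type} [DecidableEq α] {k : Finset α → ℕ} {E F S T : Finset α}

/-- Separators. -/
def Sp (k : Finset α → ℕ) (E S : Finset α) : Prop := k S + k (E \ S) = k ∅ + k E

theorem IsK.sp_le (h : IsK k) (hS : S ⊆ E) : k S + k (E \ S) ≤ k ∅ + k E := by
  have := h.sup S (E \ S)
  rw [union_sdiff_of_subset hS, Finset.inter_sdiff_self] at this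
  omega

theorem Sp.restrict (h : IsK k) (hS : S ⊆ E) (hF : F ⊆ E) (hs : Sp k E S) : Sp k F (S ∩ F) := by
  have h0 := h.sp_le (inter_subset_right : S ∩ F ⊆ F)
  have h1 := h.sup S F
  have h2 := h.sup (E \ S) (S ∪ F)
  have e1 : E \ S ∪ (S ∪ F) = E := by
    ext x; simp only [mem_union, mem_sdiff]; have := @hS x; have := @hF x; tauto
  have e2 : E \ S ∩ (S ∪ F) = F \ (S ∩ F) := by
    ext x; simp only [mem_union, mem_sdiff, mem_inter]; have := @hF x; tauto
  rw [e1, e2] at h2
  unfold Sp at *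
  omega

theorem Sp.compl (hS : S ⊆ E) (hs : Sp k E S) : Sp k E (E \ S) := by
  unfold Sp at *
  rw [Finset.sdiff_sdiff_eq_self hS]; omega

theorem Sp.inter (h : IsK k) (hS : S ⊆ E) (hT : T ⊆ E) (hs : Sp k E S) (ht : Sp k E T) :
    Sp k E (S ∩ T) := by
  have h1 := h.lam_sub E S T
  have h2 := h.sp_le (union_subset hS hT)
  have h3 := h.sp_le (inter_subset_left.trans hS : S ∩ T ⊆ E)
  unfold Sp lam at *
  omega

theorem Sp.trans (h : IsK k) (hS : S ⊆ F) (hF : F ⊆ E) (hs : Sp k F S) (hf : Sp k E F) :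
    Sp k E S := by
  have h1 := hf.restrict h hF (sdiff_subset : E \ S ⊆ E)
  have e1 : F ∩ (E \ S) = F \ S := by
    ext x; simp only [mem_sdiff, mem_inter]; have := @hF x; tauto
  have e2 : (E \ S) \ (F \ S) = E \ F := by
    ext x; simp only [mem_sdiff]; have := @hS x; tauto
  unfold Sp at *
  rw [e1, e2] at h1
  omega

theorem Conn.sp (hc : Conn k E) (hS : S ⊆ E) (h1 : S.Nonempty) (hs : Sp k E S) : S = E := by
  by_contra hn
  have := hc S hS h1 (sdiff_nonempty.2 fun hh => hn (Subset.antisymm hS hh))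
  unfold Sp at hs
  omega

theorem conn_of_sp (h : IsK k) (hc : ∀ S ⊆ E, S.Nonempty → (E \ S).Nonempty → ¬ Sp k E S) :
    Conn k E := fun S hS h1 h2 => lt_of_le_of_ne (h.sp_le hS) (hc S hS h1 h2)

theorem Zk_mul {q : ℝ} {v : α → ℝ} {c : ℕ} {k1 : Finset α → ℕ} (T : Finset α) :
    ∀ (k k2 : Finset α → ℕ), Disjoint S T → (∀ A ⊆ S, ∀ B ⊆ T, k (A ∪ B) + c = k1 A + k2 B) →
      Zk q k v (S ∪ T) * q ^ c = Zk q k1 v S * Zk q k2 v T := by
  induction T using Finset.induction_on with
  | empty =>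
    intro k k2 _ hk
    rw [union_empty, Zk_empty]
    unfold Zk
    rw [sum_mul, sum_mul]
    refine sum_congr rfl fun A hA => ?_
    have := hk A (mem_powerset.1 hA) ∅ Subset.rfl
    rw [union_empty] at this
    rw [mul_right_comm, ← pow_add, this, pow_add]; ring
  | insert e T he ih =>
    intro k k2 hd hk
    rw [disjoint_insert_right] at hd
    have h1 := ih k k2 hd.2 fun A hA B hB => hk A hA B (hB.trans (subset_insert _ _))
    have h2 := ih (con k e) (con k2 e) hd.2 fun A hA B hB => by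
      unfold con
      rw [← union_insert]
      exact hk A hA _ (insert_subset_insert _ hB)
    rw [union_insert, Zk_insert (by simp [hd.1, he]), Zk_insert he]
    linear_combination h1 + v e * h2

theorem Sp.mul (h : IsK k) (hS : S ⊆ E) (hs : Sp k E S) (q : ℝ) (v : α → ℝ) :
    Zk q k v E * q ^ k ∅ = Zk q k v S * Zk q k v (E \ S) := by
  have := Zk_mul (q := q) (v := v) (c := k ∅) (k1 := k) (S := S) (E \ S) k k disjoint_sdiff (by
    intro A hA B hB
    have h1 := hs.restrict h hS (union_subset (hA.trans hS) (hB.trans sdiff_subset))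
    have hB' : ∀ x ∈ B, x ∉ S := fun x hx => (mem_sdiff.1 (hB hx)).2
    have e1 : S ∩ (A ∪ B) = A := by
      ext x; simp only [mem_union, mem_inter]; have := @hA x; have := hB' x; tauto
    have e2 : (A ∪ B) \ A = B := by
      ext x; simp only [mem_union, mem_sdiff]; have := @hA x; have := hB' x; tauto
    unfold Sp at h1
    rw [e1, e2] at h1
    omega)
  rwa [union_sdiff_of_subset hS] at this

/-- Decomposition into connected separators. -/
structure Dec (k : Finset α → ℕ) (E : Finset α) (P : List (Finset α)) : Prop where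
  part : ∀ K ∈ P, K ⊆ E ∧ Conn k K ∧ Sp k E K
  disj : P.Pairwise Disjoint
  cover : ∀ e ∈ E, ∃ K ∈ P, e ∈ K

theorem Dec.sign (h : IsK k) {q : ℝ} (hq : 0 < q) (v : α → ℝ) (P : List (Finset α)) :
    ∀ E, Dec k E P →
      SignType.sign (Zk q k v E) = (P.map fun K => SignType.sign (Zk q k v K)).prod := by
  induction P with
  | nil =>
    intro E d
    have : E = ∅ := eq_empty_of_forall_notMem fun e he => by simpa using d.cover e he
    rw [this, Zk_empty, sign_pos (pow_pos hq _)]; rfl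
  | cons K R ih =>
    intro E d
    obtain ⟨a1, -, a3⟩ := d.part K List.mem_cons_self
    have hd := List.pairwise_cons.1 d.disj
    have d' : Dec k (E \ K) R := by
      refine ⟨fun K' hK' => ?_, hd.2, fun e he => ?_⟩
      · obtain ⟨b1, b2, b3⟩ := d.part K' (List.mem_cons_of_mem _ hK')
        have b4 : K' ⊆ E \ K := subset_sdiff.2 ⟨b1, (hd.1 K' hK').symm⟩
        have b5 := b3.restrict h b1 (sdiff_subset : E \ K ⊆ E)
        rw [inter_eq_left.2 b4] at b5
        exact ⟨b4, b2, b5⟩
      · obtain ⟨K', h1, h2⟩ := d.cover e (mem_sdiff.1 he).1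
        rcases List.mem_cons.1 h1 with rfl | h1
        · exact absurd h2 (mem_sdiff.1 he).2
        · exact ⟨K', h1, h2⟩
    have := congrArg SignType.sign (a3.mul h a1 q v)
    rw [sign_mul, sign_mul, sign_pos (pow_pos hq _), mul_one] at this
    rw [List.map_cons, List.prod_cons, this, ih _ d']

theorem sp_avoid (h : IsK k) (R : List (Finset α)) (hR : ∀ K ∈ R, K ⊆ E ∧ Sp k E K) :
    ∀ N, (∀ x, x ∈ N ↔ x ∈ E ∧ ∀ K ∈ R, x ∉ K) → Sp k E N := by
  induction R with
  | nil =>
    intro N hN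
    have : N = E := by ext x; simp [hN]
    rw [this]; unfold Sp; rw [Finset.sdiff_self, add_comm]
  | cons K R ih =>
    intro N hN
    classical
    obtain ⟨a1, a2⟩ := hR K List.mem_cons_self
    have := Sp.inter h sdiff_subset (filter_subset _ _) (a2.compl a1)
      (ih (fun K' hK' => hR K' (List.mem_cons_of_mem _ hK'))
        (E.filter fun x => ∀ K ∈ R, x ∉ K) fun x => mem_filter)
    convert this using 1
    ext x
    simp only [hN, List.forall_mem_cons, mem_inter, mem_sdiff, mem_filter]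
    tauto

theorem Dec.step (h : IsK k) {P R : List (Finset α)} {e : α} (d : Dec k E P)
    (hR : R.Sublist P) (hR' : ∀ K ∈ P, K ∈ R ↔ Sp k (insert e E) K) {N : Finset α}
    (hN : ∀ x, x ∈ N ↔ x ∈ insert e E ∧ ∀ K ∈ R, x ∉ K) : Dec k (insert e E) (N :: R) := by
  have hE : E ⊆ insert e E := subset_insert _ _
  have hRP : ∀ K ∈ R, K ∈ P := fun K hK => hR.subset hK
  have hNE : N ⊆ insert e E := fun x hx => ((hN x).1 hx).1
  have hNs : Sp k (insert e E) N := sp_avoid h R
    (fun K hK => ⟨(d.part K (hRP K hK)).1.trans hE, (hR' K (hRP K hK)).1 hK⟩) N hN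
  have hsym : Std.Symm (Disjoint : Finset α → Finset α → Prop) := ⟨fun _ _ hh => hh.symm⟩
  have key : ∀ Y ⊆ N, e ∉ Y → Y.Nonempty → ¬ Sp k N Y := by
    intro Y hY heY ⟨y, hy⟩ hs
    have hYs := hs.trans h hY hNE hNs
    have hYE : Y ⊆ E := fun x hx => (mem_insert.1 (hNE (hY hx))).resolve_left
      fun hh => heY (hh ▸ hx)
    obtain ⟨K, hK, hyK⟩ := d.cover y (hYE hy)
    obtain ⟨a1, a2, a3⟩ := d.part K hK
    have hKR : K ∉ R := fun hh => ((hN y).1 (hY hy)).2 K hh hyK
    have b1 := a2.sp inter_subset_right ⟨y, mem_inter.2 ⟨hy, hyK⟩⟩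
      (hYs.restrict h (hYE.trans hE) (a1.trans hE))
    have b2 : K ⊆ Y := inter_eq_right.1 b1
    have b3 := a3.restrict h a1 hYE
    rw [inter_eq_left.2 b2] at b3
    exact hKR ((hR' K hK).2 (b3.trans h b2 (hYE.trans hE) hYs))
  refine ⟨fun K hK => ?_, List.pairwise_cons.2 ⟨fun K hK => ?_, d.disj.sublist hR⟩, fun x hx => ?_⟩
  · rcases List.mem_cons.1 hK with rfl | hK
    · refine ⟨hNE, conn_of_sp h fun S hS h1 h2 hs => ?_, hNs⟩
      by_cases heS : e ∈ S
      · exact key _ sdiff_subset (by simp [heS]) h2 (hs.compl hS)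
      · exact key S hS heS h1 hs
    · exact ⟨(d.part K (hRP K hK)).1.trans hE, (d.part K (hRP K hK)).2.1,
        (hR' K (hRP K hK)).1 hK⟩
  · exact disjoint_left.2 fun x hx => ((hN x).1 hx).2 K hK
  · by_cases hh : ∀ K ∈ R, x ∉ K
    · exact ⟨N, List.mem_cons_self, (hN x).2 ⟨hx, hh⟩⟩
    · push Not at hh
      obtain ⟨K, h1, h2⟩ := hh
      exact ⟨K, List.mem_cons_of_mem _ h1, h2⟩

theorem IsK.rank_le (h : IsK k) (A : Finset α) : k ∅ ≤ k A + A.card := by
  induction A using Finset.induction_on with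
  | empty => simp
  | insert e A he ih => have := h.ge A e; rw [card_insert_of_notMem he]; omega

end Pool.Agent.P.MP_e0c037_lc
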