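import Pool.Agent.P.MP_e0c037_lc.Graph
import Pool.Agent.P.MP_e0c037_lc.Sep
import Pool.Agent.Lib.helper21.PTInt

/-! The algorithm: component counts, decomposition into blocks, enumeration of small blocks. -/

namespace Pool.Agent.P.MP_e0c037_lc

open Pool.Agent.Lib.helper21 Finset

/-- Inputs. -/
abbrev Inp := ℕ × List (ℕ × ℕ)

/-- One step of label merging. -/
def kstep (G : Inp) (s : List ℕ × ℕ) (i : ℕ) : List ℕ × ℕ :=
  (s.1.map fun x => cond (decide (x = s.1.getD (G.2.getD i (0, 0)).2 0))
      (s.1.getD (G.2.getD i (0, 0)).1 0) x,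
    cond (decide (s.1.getD (G.2.getD i (0, 0)).1 0 = s.1.getD (G.2.getD i (0, 0)).2 0)) s.2
      (s.2 - 1))

/-- Number of components. -/
def kk (G : Inp) (A : List ℕ) : ℕ := (A.foldl (kstep G) (List.range G.1, G.1)).2

theorem kstep_bd (G : Inp) (A : List ℕ) : ∀ s : List ℕ × ℕ,
    (s.1.length = G.1 ∧ (∀ x ∈ s.1, x ≤ G.1) ∧ s.2 ≤ G.1) →
    ((A.foldl (kstep G) s).1.length = G.1 ∧ (∀ x ∈ (A.foldl (kstep G) s).1, x ≤ G.1) ∧
      (A.foldl (kstep G) s).2 ≤ G.1) := by
  induction A with
  | nil => exact fun s h => h
  | cons i A ih =>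
    intro s ⟨h1, h2, h3⟩
    refine ih _ ⟨by simp [kstep, h1], fun x hx => ?_, ?_⟩
    · obtain ⟨y, hy, rfl⟩ := List.mem_map.1 hx
      cases decide (y = s.1.getD (G.2.getD i (0, 0)).2 0)
      · exact h2 y hy
      · show s.1.getD _ 0 ≤ _
        rw [List.getD_eq_getElem?_getD]
        cases hh : s.1[(G.2.getD i (0, 0)).1]? with
        | none => simp
        | some z => exact h2 z (List.mem_of_getElem? hh)
    · unfold kstep
      cases decide (s.1.getD (G.2.getD i (0, 0)).1 0 = s.1.getD (G.2.getD i (0, 0)).2 0)
      · show s.2 - 1 ≤ _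
        omega
      · exact h3

theorem pt_kk0 : PT fun p : Inp × List ℕ => kk p.1 p.2 := by
  refine (PT.foldl (f := fun p : Inp × List ℕ => kstep p.1) (by unfold kstep; fun_prop)
    (by fun_prop) (by fun_prop) (fun p => 2 * (p.1.1 * (2 * p.1.1 + 2) + 1) + p.1.1 + 1)
    (PT.bdNat (by fun_prop)) fun p j => ?_).snd
  obtain ⟨h1, h2, h3⟩ := kstep_bd p.1 (p.2.take j) (List.range p.1.1, p.1.1)
    ⟨by simp, fun x hx => (List.mem_range.1 hx).le, le_rfl⟩
  have := sz_list_le _ p.1.1 fun a ha => (sz_nat a).trans_le (h2 a ha)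
  rw [h1] at this
  rw [sz_prod, sz_nat]
  omega

@[fun_prop] theorem pt_kk {α : Type} [Enc α] {f : α → Inp} {g : α → List ℕ} (hf : PT f)
    (hg : PT g) : PT fun a => kk (f a) (g a) :=
  pt_kk0.comp (g := fun a => (f a, g a)) (hf.pair hg)

/-- All ends of edges are vertices. -/
def Valid (G : Inp) : Prop := ∀ e ∈ G.2, e.1 < G.1 ∧ e.2 < G.1

theorem kstep_inv {G : Inp} (hG : Valid G) (A : List ℕ) : ∀ (s : List ℕ × ℕ) (B : Finset ℕ),
    (∀ i ∈ A, i < G.2.length) → s.1.length = G.1 →
    (∀ x y : Fin G.1, s.1.getD x 0 = s.1.getD y 0 ↔ (spanning G.1 G.2 B).Reachable x y) →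
    s.2 = comps G.1 G.2 B → (A.foldl (kstep G) s).2 = comps G.1 G.2 (B ∪ A.toFinset) := by
  induction A with
  | nil => intro s B _ _ _ h; simpa using h
  | cons i A ih =>
    intro s B hA h1 h2 h3
    have hi := hA i List.mem_cons_self
    obtain ⟨ha, hb⟩ := hG _ (List.getElem_mem hi)
    have he : G.2[i]? = some ((⟨G.2[i].1, ha⟩ : Fin G.1).val, (⟨G.2[i].2, hb⟩ : Fin G.1).val) :=
      List.getElem?_eq_getElem hi
    have hd : G.2.getD i (0, 0) = G.2[i] := by simp [List.getD_eq_getElem?_getD, hi]
    rw [List.foldl_cons, List.toFinset_cons, union_insert, ← insert_union]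
    refine ih _ _ (fun j hj => hA j (List.mem_cons_of_mem _ hj)) (by simp [kstep, h1]) ?_ ?_
    · intro x y
      rw [← lab_update (lab := fun x : Fin G.1 => s.1.getD x 0) h2 (adj_insert he)]
      have key : ∀ x : Fin G.1, (kstep G s i).1.getD x 0 =
          if s.1.getD x 0 = s.1.getD G.2[i].2 0 then s.1.getD G.2[i].1 0 else s.1.getD x 0 := by
        intro x
        have hx : x.val < s.1.length := by rw [h1]; exact x.2
        have e1 : s.1.getD x 0 = s.1[x.val] := by simp [List.getD_eq_getElem?_getD, hx]
        unfold kstep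
        rw [hd, e1, List.getD_eq_getElem?_getD (l := List.map _ _), List.getElem?_map,
          List.getElem?_eq_getElem hx]
        simp only [Option.map_some, Option.getD_some, Bool.cond_decide]
      rw [key, key]
    · obtain ⟨c1, c2⟩ := comps_insert (A := B) he
      rw [← h2] at c1 c2
      unfold kstep
      rw [hd]
      simp only [Bool.cond_decide]
      split_ifs with hh
      · rw [c1 hh, h3]
      · have := c2 hh; omega

theorem kk_eq {G : Inp} (hG : Valid G) {A : List ℕ} (hA : ∀ i ∈ A, i < G.2.length) :
    kk G A = comps G.1 G.2 A.toFinset := by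
  have := kstep_inv hG A (List.range G.1, G.1) ∅ hA (by simp) (fun x y => by
    rw [← reach_empty]; simp [List.getD_eq_getElem?_getD]) comps_empty.symm
  rwa [empty_union] at this

/-- Membership test. -/
def memb (i : ℕ) (K : List ℕ) : Bool := K.any fun x => decide (x = i)

theorem memb_iff {i : ℕ} {K : List ℕ} : memb i K = false ↔ i ∉ K := by
  simp only [memb, List.any_eq_false, decide_eq_true_eq]
  exact ⟨fun h hi => h i hi rfl, fun h x hx e => h (e ▸ hx)⟩

/-- The parts that remain separators. -/
def keep (G : Inp) (P : List (List ℕ)) (j : ℕ) : List (List ℕ) :=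
  P.filter fun K => decide (kk G K + kk G ((List.range (j + 1)).filter fun i => !memb i K) =
    G.1 + kk G (List.range (j + 1)))

/-- One step of the decomposition. -/
def pstep (G : Inp) (P : List (List ℕ)) (j : ℕ) : List (List ℕ) :=
  ((List.range (j + 1)).filter fun i => (keep G P j).all fun K => !memb i K) :: keep G P j

/-- The blocks. -/
def parts (G : Inp) : List (List ℕ) := (List.range G.2.length).foldl (pstep G) []

theorem sz_filter {α : Type} [Enc α] (p : α → Bool) (l : List α) : sz (l.filter p) ≤ sz l := by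
  induction l with
  | nil => simp
  | cons a l ih => rw [List.filter_cons]; split_ifs <;> simp only [sz_cons] <;> omega

theorem pt_keep : PT fun p : Inp × List (List ℕ) × ℕ => keep p.1 p.2.1 p.2.2 := by
  unfold keep memb; fun_prop

theorem pt_parts : PT parts := by
  have h := pt_keep
  refine PT.foldl_add (f := pstep) (by unfold pstep memb; fun_prop) (by fun_prop) (by fun_prop)
    (fun p => 2 * sz (List.range (p.2 + 1)) + 2) (PT.bdNat (by fun_prop)) fun G P j => ?_
  have h1 : sz (keep G P j) ≤ sz P := sz_filter _ _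
  have h2 := sz_filter (fun i => (keep G P j).all fun K => !memb i K) (List.range (j + 1))
  unfold pstep
  rw [sz_cons]
  dsimp only
  omega

theorem parts_inv {G : Inp} (hG : Valid G) (j : ℕ) (hj : j ≤ G.2.length) :
    (∀ K ∈ (List.range j).foldl (pstep G) [], K.Nodup) ∧
    Dec (comps G.1 G.2) (range j) (((List.range j).foldl (pstep G) []).map List.toFinset) := by
  induction j with
  | zero => exact ⟨by simp, by simp, by simp, by simp⟩
  | succ j ih =>
    obtain ⟨h1, d⟩ := ih (by omega)
    rw [List.range_succ, List.foldl_append, List.foldl_cons, List.foldl_nil]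
    generalize (List.range j).foldl (pstep G) [] = P at h1 d
    have hs : (keep G P j).Sublist P := List.filter_sublist
    have hk : ∀ K ∈ P, K ∈ keep G P j ↔ Sp (comps G.1 G.2) (insert j (range j)) K.toFinset := by
      intro K hK
      have hK' : ∀ i ∈ K, i < j := fun i hi => mem_range.1
        ((d.part _ (List.mem_map_of_mem hK)).1 (List.mem_toFinset.2 hi))
      unfold keep Sp
      rw [List.mem_filter, decide_eq_true_iff, kk_eq hG fun i hi => by have := hK' i hi; omega,
        kk_eq hG fun i hi => by have := List.mem_range.1 (List.mem_filter.1 hi).1; omega,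
        kk_eq hG fun i hi => by have := List.mem_range.1 hi; omega, comps_empty,
        ← range_add_one, List.toFinset_range]
      have : ((List.range (j + 1)).filter fun i => !memb i K).toFinset =
          range (j + 1) \ K.toFinset := by
        ext x; simp [memb_iff]
      rw [this]
      tauto
    constructor
    · intro K hK
      rcases List.mem_cons.1 hK with rfl | hK
      · exact List.nodup_range.filter _
      · exact h1 K (hs.subset hK)
    · unfold pstep
      rw [List.map_cons, range_add_one]
      refine d.step (isK_comps _ _) (hs.map _) (fun K hK => ?_) fun x => ?_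
      · obtain ⟨K', h2, rfl⟩ := List.mem_map.1 hK
        constructor
        · intro h3
          obtain ⟨K'', h4, h5⟩ := List.mem_map.1 h3
          rw [← h5]; exact (hk _ (hs.subset h4)).1 h4
        · intro h3
          exact List.mem_map_of_mem ((hk _ h2).2 h3)
      · rw [← range_add_one]
        simp [memb_iff]

/-- All sublists of a short list. -/
def subs : ℕ → List ℕ → List (List ℕ)
  | 0, _ => [[]]
  | M + 1, K => lcase K [[]] fun a t => subs M t ++ (subs M t).map fun A => a :: A

theorem pt_subs (M : ℕ) : PT (subs M) := by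
  induction M with
  | zero => exact PT.const _
  | succ M ih =>
    exact PT.of_eq (f := fun K : List ℕ =>
      lcase K [[]] fun a t => subs M t ++ (subs M t).map fun A => a :: A) (by fun_prop)
      fun _ => rfl

theorem subs_len (M : ℕ) : ∀ K, (subs M K).length ≤ 2 ^ M := by
  induction M with
  | zero => intro K; simp [subs]
  | succ M ih =>
    intro K
    cases K with
    | nil => simp [subs, lcase, Nat.one_le_two_pow]
    | cons a t => have := ih t; simp [subs, lcase, pow_succ]; omega

theorem subs_sub (M : ℕ) : ∀ K, ∀ A ∈ subs M K, A.Sublist K := by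
  induction M with
  | zero => intro K A hA; simp [subs] at hA; simp [hA]
  | succ M ih =>
    intro K A hA
    cases K with
    | nil => simpa [subs, lcase] using hA
    | cons a t =>
      simp only [subs, lcase, List.mem_append, List.mem_map] at hA
      rcases hA with hA | ⟨B, hB, rfl⟩
      · exact (ih t A hA).cons _
      · exact (ih t B hB).cons_cons _

theorem subs_sum (M : ℕ) : ∀ (K : List ℕ) (F : Finset ℕ → ℝ), K.Nodup → K.length ≤ M →
    ((subs M K).map fun A => F A.toFinset).sum = ∑ A ∈ K.toFinset.powerset, F A := by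
  induction M with
  | zero =>
    intro K F _ h
    rw [List.length_eq_zero_iff.1 (Nat.le_zero.1 h)]
    simp [subs]
  | succ M ih =>
    intro K F hK h
    cases K with
    | nil => simp [subs, lcase]
    | cons a t =>
      rw [List.nodup_cons] at hK
      have h' : t.length ≤ M := by simpa using h
      simp only [subs, lcase, List.map_append, List.sum_append, List.map_map, List.toFinset_cons]
      rw [sum_powerset_insert (by simpa using hK.1), ← ih t F hK.2 h',
        ← ih t (fun A => F (insert a A)) hK.2 h']
      simp [Function.comp_def]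

theorem pt_eq (c : List (ℕ × ℕ)) : PT fun x : List (ℕ × ℕ) => decide (x = c) := by
  induction c with
  | nil => exact (PT.isEmpty PT.id).of_eq fun x => by cases x <;> rfl
  | cons a t ih =>
    refine PT.of_eq (f := fun x : List (ℕ × ℕ) => lcase x false fun y s =>
      (decide (y.1 = a.1) && decide (y.2 = a.2)) && decide (s = t))
      (PT.lcase PT.id (PT.const _) (PT.and (by fun_prop) (ih.comp (by fun_prop)))) fun x => ?_
    cases x with
    | nil => rfl
    | cons y s => simp [lcase, Prod.ext_iff]

theorem pt_table (g : List (ℕ × ℕ) → ℤ) {T : Set (List (ℕ × ℕ))} (hT : T.Finite) :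
    ∃ g' : List (ℕ × ℕ) → ℤ, PT g' ∧ ∀ x ∈ T, g' x = g x := by
  induction T, hT using Set.Finite.induction_on with
  | empty => exact ⟨fun _ => 0, PT.const _, by simp⟩
  | @insert c T _ _ ih =>
    obtain ⟨g', h1, h2⟩ := ih
    refine ⟨fun x => cond (decide (x = c)) (g c) (g' x), (pt_eq c).cond (PT.const _) h1,
      fun x hx => ?_⟩
    by_cases hc : x = c
    · simp [hc]
    · simpa [hc] using h2 x (hx.resolve_left hc)

theorem finite_short (N M : ℕ) :
    {l : List (ℕ × ℕ) | l.length ≤ N ∧ ∀ p ∈ l, p.1 ≤ M ∧ p.2 ≤ M}.Finite := by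
  refine ((List.finite_length_le (Fin (M + 1) × Fin (M + 1)) N).image
    (List.map fun p => (p.1.val, p.2.val))).subset ?_
  rintro l ⟨h1, h2⟩
  refine ⟨l.map fun p => (Fin.ofNat _ p.1, Fin.ofNat _ p.2), by simpa using h1, ?_⟩
  rw [List.map_map]
  refine (List.map_congr_left fun p hp => ?_).trans (List.map_id l)
  obtain ⟨a1, a2⟩ := h2 p hp
  simp [Nat.mod_eq_of_lt (Nat.lt_succ_of_le a1), Nat.mod_eq_of_lt (Nat.lt_succ_of_le a2)]

end Pool.Agent.P.MP_e0c037_lc
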