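import Mathlib

/-! Definitions used in the statements. A multigraph is a pair `(n, L)`: the vertices are
`0, …, n - 1` and `L` lists the edges by their ends (loops and repeated edges allowed). -/

namespace Pool.Agent.P.MP_e0c037_lc

/-- The simple graph on the `n` vertices in which two distinct vertices are adjacent when they are
the ends of an edge of `L` whose position lies in `A`. -/
def spanning (n : ℕ) (L : List (ℕ × ℕ)) (A : Finset ℕ) : SimpleGraph (Fin n) :=
  SimpleGraph.fromRel fun a b => ∃ i ∈ A, L[i]? = some (a.val, b.val)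

/-- The number `k(A)` of connected components of the spanning subgraph with edge set `A`. -/
noncomputable def comps (n : ℕ) (L : List (ℕ × ℕ)) (A : Finset ℕ) : ℕ :=
  Nat.card (spanning n L A).ConnectedComponent

/-- The dichromatic polynomial `Z(G; q, v)`. -/
noncomputable def dichromatic (n : ℕ) (L : List (ℕ × ℕ)) (q v : ℝ) : ℝ :=
  ∑ A ∈ (Finset.range L.length).powerset, q ^ comps n L A * v ^ A.card

/-- The multivariate dichromatic (Tutte) polynomial, with weight `v i` on the edge in position
`i`. -/
noncomputable def multiZ (n : ℕ) (L : List (ℕ × ℕ)) (q : ℝ) (v : ℕ → ℝ) : ℝ :=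
  ∑ A ∈ (Finset.range L.length).powerset, q ^ comps n L A * ∏ i ∈ A, v i

/-- `w` is the middle one of three real roots of `x ^ 3 - 2 q x - q ^ 2`. -/
def IsMiddleRoot (q w : ℝ) : Prop :=
  w ^ 3 - 2 * q * w - q ^ 2 = 0 ∧
    ∃ a c : ℝ, a < w ∧ w < c ∧ a ^ 3 - 2 * q * a - q ^ 2 = 0 ∧ c ^ 3 - 2 * q * c - q ^ 2 = 0

/-- Self-delimiting code of a pair of bit strings. -/
def encPair (x y : List Bool) : List Bool := x.flatMap (fun c => [true, c]) ++ false :: y

/-- Code of a multigraph: `n` and the ends of the edges in unary. -/
def encGraph (G : ℕ × List (ℕ × ℕ)) : List Bool :=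
  encPair (List.replicate G.1 true) (G.2.foldr (fun e w =>
    true :: encPair (encPair (List.replicate e.1 true) (List.replicate e.2 true)) w) [false])

/-- Code of an integer: sign bit and binary digits of the absolute value. -/
def encInt (z : ℤ) : List Bool := decide (z < 0) :: z.natAbs.bits

end Pool.Agent.P.MP_e0c037_lc
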