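import Pool.Agent.P.MP_e0c037_lc.Defs

/-! Two-connected multigraphs. -/

namespace Pool.Agent.P.MP_e0c037_lc

/-- The multigraph has no loops, is connected, and stays connected when any one vertex is
deleted. -/
def TwoConnected (n : ℕ) (L : List (ℕ × ℕ)) : Prop :=
  (∀ e ∈ L, e.1 ≠ e.2) ∧ (spanning n L (Finset.range L.length)).Connected ∧
    ∀ w : Fin n, ((spanning n L (Finset.range L.length)).induce {x | x ≠ w}).Preconnected

end Pool.Agent.P.MP_e0c037_lc
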