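import Mathlib

/-! Component-count functions (graphic-style presentation of matroids), connectivity and the
reduction lemma. -/

namespace Pool.Agent.P.MP_e0c037_lc

open Finset

variable {α : Type} [DecidableEq α]

/-- Axioms of a component count. -/
structure IsK (k : Finset α → ℕ) : Prop where
  le : ∀ A e, k (insert e A) ≤ k A
  ge : ∀ A e, k A ≤ k (insert e A) + 1
  dim : ∀ A B e, A ⊆ B → k (insert e A) = k A → k (insert e B) = k B

/-- Contraction. -/
def con (k : Finset α → ℕ) (g : α) : Finset α → ℕ := fun A => k (insert g A)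

variable {k : Finset α → ℕ}

theorem IsK.con (h : IsK k) (g : α) : IsK (con k g) where
  le A e := by unfold MP_e0c037_lc.con; rw [Finset.insert_comm]; exact h.le _ _
  ge A e := by unfold MP_e0c037_lc.con; rw [Finset.insert_comm]; exact h.ge _ _
  dim A B e hAB := by
    unfold MP_e0c037_lc.con
    rw [Finset.insert_comm g e A, Finset.insert_comm g e B]
    exact h.dim _ _ e (insert_subset_insert g hAB)

theorem IsK.union_le (h : IsK k) (A T : Finset α) : k (A ∪ T) ≤ k A := by
  induction T using Finset.induction_on with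
  | empty => simp
  | insert e T _ ih => rw [union_insert]; exact (h.le _ _).trans ih

theorem IsK.anti (h : IsK k) {A B : Finset α} (hAB : A ⊆ B) : k B ≤ k A := by
  have := h.union_le A B
  rwa [union_eq_right.2 hAB] at this

theorem IsK.dimin (h : IsK k) {A B : Finset α} (hAB : A ⊆ B) (T : Finset α) :
    k B + k (A ∪ T) ≤ k A + k (B ∪ T) := by
  induction T using Finset.induction_on with
  | empty => simp [add_comm]
  | insert e T _ ih =>
    rw [union_insert, union_insert]
    have h1 := h.le (A ∪ T) e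
    have h2 := h.ge (B ∪ T) e
    by_cases h3 : k (insert e (A ∪ T)) = k (A ∪ T)
    · have := h.dim _ (B ∪ T) e (union_subset_union hAB Subset.rfl) h3
      omega
    · omega

theorem IsK.sup (h : IsK k) (A B : Finset α) : k A + k B ≤ k (A ∪ B) + k (A ∩ B) := by
  have := h.dimin (inter_subset_left : A ∩ B ⊆ A) B
  rw [union_eq_right.2 inter_subset_right] at this
  omega

/-- Connectivity. -/
def Conn (k : Finset α → ℕ) (E : Finset α) : Prop :=
  ∀ S ⊆ E, S.Nonempty → (E \ S).Nonempty → k S + k (E \ S) < k ∅ + k E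

/-- Connectivity function. -/
def lam (k : Finset α → ℕ) (E S : Finset α) : ℤ := (k ∅ : ℤ) + k E - k S - k (E \ S)

theorem lam_compl {E S : Finset α} (hS : S ⊆ E) : lam k E (E \ S) = lam k E S := by
  unfold lam; rw [Finset.sdiff_sdiff_eq_self hS]; ring

theorem IsK.lam_sub (h : IsK k) (E X Y : Finset α) :
    lam k E (X ∪ Y) + lam k E (X ∩ Y) ≤ lam k E X + lam k E Y := by
  have h1 := h.sup X Y
  have h2 := h.sup (E \ X) (E \ Y)
  rw [← sdiff_inter_distrib_right, ← sdiff_union_distrib] at h2
  unfold lam; omega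

theorem IsK.lam_pos (h : IsK k) {E X Y : Finset α} (hX : X ⊆ E) (hY : Y ⊆ E) :
    lam k E (X \ Y) + lam k E (Y \ X) ≤ lam k E X + lam k E Y := by
  have h1 := h.lam_sub E X (E \ Y)
  have e1 : X ∩ (E \ Y) = X \ Y := by
    ext a; simp only [mem_inter, mem_sdiff]; have := @hX a; tauto
  have e2 : X ∪ (E \ Y) = E \ (Y \ X) := by
    ext a; simp only [mem_union, mem_sdiff]; have := @hX a; tauto
  rw [e1, e2, lam_compl hY, lam_compl (sdiff_subset.trans hY)] at h1
  omega

theorem Conn.one_le {E S : Finset α} (hc : Conn k E) (hS : S ⊆ E) (h1 : S.Nonempty) {f : α}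
    (hf : f ∈ E) (hfS : f ∉ S) : 1 ≤ lam k E S := by
  have := hc S hS h1 ⟨f, mem_sdiff.2 ⟨hf, hfS⟩⟩
  unfold lam; omega

theorem Conn.single {E : Finset α} (h : IsK k) (hc : Conn k E) {e f : α} (he : e ∈ E) (hf : f ∈ E)
    (hef : e ≠ f) : k {e} + 1 = k ∅ ∧ k (E.erase e) = k E := by
  have h1 := hc {e} (by simpa) (by simp) ⟨f, by simp [hf, hef.symm]⟩
  rw [sdiff_singleton_eq_erase] at h1
  have h2 := h.ge ∅ e
  have h3 := h.anti (erase_subset e E)
  rw [insert_empty_eq] at h2
  omega

/-- Good pairs. -/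
def Good (k : Finset α → ℕ) (E : Finset α) (f : α) (S : Finset α) (g : α) : Prop :=
  S.Nonempty ∧ S ⊆ E ∧ g ∈ E ∧ g ∉ S ∧ f ∉ S ∧ g ≠ f ∧ lam k E S ≤ 1 ∧ lam k E (insert g S) ≤ 1

theorem good_of_split {E X : Finset α} {e f : α} (he : e ∈ E) (hef : e ≠ f)
    (hX : X ⊆ E.erase e) (h1 : X.Nonempty) (h2 : (E.erase e \ X).Nonempty)
    (l1 : lam k E X ≤ 1) (l2 : lam k E (E.erase e \ X) ≤ 1) : ∃ S, Good k E f S e := by
  have hXE : X ⊆ E := hX.trans (erase_subset _ _)
  have heX : e ∉ X := fun hh => by simpa using hX hh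
  have hYE : E.erase e \ X ⊆ E := sdiff_subset.trans (erase_subset _ _)
  by_cases hfX : f ∈ X
  · refine ⟨E.erase e \ X, h2, hYE, he, by simp, by simp [hfX], hef, l2, ?_⟩
    have : insert e (E.erase e \ X) = E \ X := by
      ext a; simp only [mem_insert, mem_sdiff, mem_erase]
      by_cases ha : a = e
      · subst ha; tauto
      · tauto
    rw [this, lam_compl hXE]; exact l1
  · refine ⟨X, h1, hXE, he, heX, hfX, hef, l1, ?_⟩
    have : E.erase e \ X = E \ insert e X := by
      ext a; simp only [mem_insert, mem_sdiff, mem_erase]; tauto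
    rw [this, lam_compl (insert_subset he hXE)] at l2
    exact l2

theorem good_of_not (h : IsK k) {E : Finset α} (hc : Conn k E) {e f : α} (he : e ∈ E) (hf : f ∈ E)
    (hef : e ≠ f) (hn : ¬ (Conn k (E.erase e) ∧ Conn (con k e) (E.erase e))) :
    ∃ S, Good k E f S e := by
  obtain ⟨s1, s2⟩ := hc.single h he hf hef
  have key : ∀ X ⊆ E.erase e, E \ X = insert e (E.erase e \ X) ∧
      E \ (E.erase e \ X) = insert e X := by
    intro X hX
    constructor
    · ext a; simp only [mem_insert, mem_sdiff, mem_erase]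
      have := @hX a
      by_cases ha : a = e
      · subst ha; simp only [mem_erase] at this; tauto
      · tauto
    · ext a; simp only [mem_insert, mem_sdiff, mem_erase]
      have := @hX a
      simp only [mem_erase] at this
      by_cases ha : a = e
      · subst ha; tauto
      · tauto
  rw [not_and_or] at hn
  rcases hn with hn | hn
  · unfold Conn at hn
    push Not at hn
    obtain ⟨X, hX, h1, h2, h3⟩ := hn
    obtain ⟨e1, e2⟩ := key X hX
    have a1 := h.ge X e
    have a2 := h.ge (E.erase e \ X) e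
    refine good_of_split he hef hX h1 h2 ?_ ?_
    · unfold lam; rw [e1]; omega
    · unfold lam; rw [e2]; omega
  · unfold Conn con at hn
    push Not at hn
    obtain ⟨X, hX, h1, h2, h3⟩ := hn
    obtain ⟨e1, e2⟩ := key X hX
    rw [insert_erase he, insert_empty_eq] at h3
    have a1 := h.le X e
    have a2 := h.le (E.erase e \ X) e
    refine good_of_split he hef hX h1 h2 ?_ ?_
    · unfold lam; rw [e1]; omega
    · unfold lam; rw [e2]; omega

theorem good_small (h : IsK k) {E : Finset α} (hc : Conn k E) {f : α} (hf : f ∈ E)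
    (hall : ∀ e ∈ E, e ≠ f → ∃ S, Good k E f S e) (n : ℕ) :
    ∀ S g, Good k E f S g → S.card = n + 1 → ∃ e g, Good k E f {e} g := by
  induction n using Nat.strong_induction_on with
  | _ n ih =>
    intro S g hg hn
    rcases Nat.eq_zero_or_pos n with rfl | hpos
    · obtain ⟨e, rfl⟩ := card_eq_one.1 hn
      exact ⟨e, g, hg⟩
    obtain ⟨⟨a, ha⟩, hSE, -, -, hfS, -, l1, -⟩ := hg
    have haf : a ≠ f := fun hh => hfS (hh ▸ ha)
    obtain ⟨T, hT1, hTE, -, haT, hfT, -, m1, m2⟩ := hall a (hSE ha) haf
    by_cases hST : (S ∩ T).Nonempty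
    · have b1 := h.lam_sub E S T
      have b2 := h.lam_sub E S (insert a T)
      have b3 := hc.one_le (union_subset hSE hTE) ⟨a, by simp [ha]⟩ hf (by simp [hfS, hfT])
      have b4 := hc.one_le (union_subset hSE (insert_subset (hSE ha) hTE)) ⟨a, by simp [ha]⟩ hf
        (by simp [hfS, hfT, haf.symm])
      rw [inter_insert_of_mem ha] at b2
      have hlt : (S ∩ T).card < S.card :=
        card_lt_card ⟨inter_subset_left, fun hh => haT (mem_inter.1 (hh ha)).2⟩
      have hp := hST.card_pos
      refine ih ((S ∩ T).card - 1) (by omega) (S ∩ T) a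
        ⟨hST, inter_subset_left.trans hSE, hSE ha, by simp [haT], by simp [hfS], haf,
          by omega, by omega⟩ (by omega)
    · have b1 := h.lam_pos hSE (insert_subset (hSE ha) hTE)
      have hd : ∀ x, x ∈ S → x ∉ T := fun x h1 h2 => hST ⟨x, mem_inter.2 ⟨h1, h2⟩⟩
      have e1 : S \ insert a T = S.erase a := by
        ext x; simp only [mem_insert, mem_sdiff, mem_erase]; have := hd x; tauto
      have e2 : insert a T \ S = T := by
        ext x; simp only [mem_insert, mem_sdiff]; have := hd x
        by_cases hx : x = a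
        · subst hx; tauto
        · tauto
      rw [e1, e2] at b1
      have b3 := hc.one_le hTE hT1 hf hfT
      have hc1 := card_erase_of_mem ha
      refine ih (n - 1) (by omega) (S.erase a) a
        ⟨card_pos.1 (by omega), (erase_subset _ _).trans hSE, hSE ha, by simp, by simp [hfS], haf,
          by omega, by rw [insert_erase ha]; exact l1⟩ (by omega)

/-- The reduction lemma. -/
theorem reduction (h : IsK k) {E : Finset α} (hc : Conn k E) {f : α} (hf : f ∈ E)
    (h2 : 2 ≤ E.card) :
    (∃ e ∈ E, e ≠ f ∧ Conn k (E.erase e) ∧ Conn (con k e) (E.erase e)) ∨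
    (∃ e ∈ E, ∃ g ∈ E, e ≠ g ∧ e ≠ f ∧ g ≠ f ∧
      (k {e, g} + 1 = k ∅ ∨ k ((E.erase g).erase e) = k E + 1)) := by
  by_cases hh : ∃ e ∈ E, e ≠ f ∧ Conn k (E.erase e) ∧ Conn (con k e) (E.erase e)
  · exact Or.inl hh
  right
  have hall : ∀ e ∈ E, e ≠ f → ∃ S, Good k E f S e := fun e he hef =>
    good_of_not h hc he hf hef fun hn => hh ⟨e, he, hef, hn⟩
  obtain ⟨e0, he0, hne⟩ := exists_mem_ne (by omega : 1 < E.card) f
  obtain ⟨S, hS⟩ := hall e0 he0 hne
  have hp := hS.1.card_pos
  obtain ⟨e, g, -, heE, hg, hge, hfe, hgf, -, l2⟩ :=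
    good_small h hc hf hall (S.card - 1) S e0 hS (by omega)
  have he : e ∈ E := by simpa using heE
  have hef : e ≠ f := fun hh => hfe (by simp [hh])
  have heg : e ≠ g := fun hh => hge (by simp [hh])
  refine ⟨e, he, g, hg, heg, hef, hgf, ?_⟩
  obtain ⟨s1, -⟩ := hc.single h he hf hef
  obtain ⟨-, s2⟩ := hc.single h hg hf hgf
  have e1 : E \ insert g {e} = (E.erase g).erase e := by
    ext x; simp only [mem_insert, mem_sdiff, mem_erase, mem_singleton]; tauto
  unfold lam at l2
  rw [e1] at l2
  have a1 := h.le {e} g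
  have a2 := h.ge ((E.erase g).erase e) e
  rw [insert_erase (mem_erase.2 ⟨heg, he⟩)] at a2
  rw [pair_comm e g]
  omega

theorem par_eq (h : IsK k) {e g : α} (h1 : k {e} + 1 = k ∅) (h2 : k {e, g} + 1 = k ∅)
    (A : Finset α) : k (insert g (insert e A)) = k (insert e A) :=
  h.dim {e} _ g (by simp) (by rw [pair_comm]; omega)

theorem ser_eq (h : IsK k) {F : Finset α} {g : α} (h1 : k F = k (insert g F) + 1)
    {A : Finset α} (hA : A ⊆ F) : k A = k (insert g A) + 1 := by
  have a1 := h.le A g
  have a2 := h.ge A g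
  by_contra hn
  have := h.dim A F g hA (by omega)
  omega

theorem conn_par (h : IsK k) {E : Finset α} (hc : Conn k E) {e g : α} (he : e ∈ E) (hg : g ∈ E)
    (heg : e ≠ g) (h2 : k {e, g} + 1 = k ∅) : Conn k (E.erase g) := by
  obtain ⟨s1, -⟩ := hc.single h he hg heg
  obtain ⟨-, s2⟩ := hc.single h hg he heg.symm
  have key : ∀ X ⊆ E.erase g, e ∈ X → (E.erase g \ X).Nonempty →
      k X + k (E.erase g \ X) < k ∅ + k (E.erase g) := by
    intro X hX heX hne
    have e1 : E \ insert g X = E.erase g \ X := by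
      ext x; simp only [mem_insert, mem_sdiff, mem_erase]; tauto
    have := hc (insert g X) (insert_subset hg (hX.trans (erase_subset _ _))) (by simp)
      (by rwa [e1])
    have p := par_eq h s1 h2 X
    rw [insert_eq_of_mem heX] at p
    rw [e1] at this
    omega
  intro X hX h1 h3
  by_cases heX : e ∈ X
  · exact key X hX heX h3
  · have := key (E.erase g \ X) sdiff_subset (by simp [heg, he, heX])
      (by rwa [Finset.sdiff_sdiff_eq_self hX])
    rw [Finset.sdiff_sdiff_eq_self hX] at this
    omega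

theorem conn_ser (h : IsK k) {E : Finset α} (hc : Conn k E) {e g : α} (he : e ∈ E) (hg : g ∈ E)
    (heg : e ≠ g) (h2 : k ((E.erase g).erase e) = k E + 1) : Conn (con k g) (E.erase g) := by
  obtain ⟨-, s1⟩ := hc.single h he hg heg
  obtain ⟨s2, -⟩ := hc.single h hg he heg.symm
  have e0 : insert g ((E.erase g).erase e) = E.erase e := by
    rw [erase_right_comm, insert_erase (mem_erase.2 ⟨heg.symm, hg⟩)]
  have key : ∀ X ⊆ E.erase g, e ∈ X → (E.erase g \ X).Nonempty →
      con k g X + con k g (E.erase g \ X) < con k g ∅ + con k g (E.erase g) := by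
    intro X hX heX hne
    have e1 : E \ insert g X = E.erase g \ X := by
      ext x; simp only [mem_insert, mem_sdiff, mem_erase]; tauto
    have := hc (insert g X) (insert_subset hg (hX.trans (erase_subset _ _))) (by simp)
      (by rwa [e1])
    have p := ser_eq h (F := (E.erase g).erase e) (g := g) (by rw [e0]; omega)
      (A := E.erase g \ X) (by
        intro x hx
        rw [mem_sdiff] at hx
        exact mem_erase.2 ⟨fun hh => hx.2 (hh ▸ heX), hx.1⟩)
    rw [e1] at this
    unfold con
    rw [insert_erase hg, insert_empty_eq]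
    omega
  intro X hX h1 h3
  by_cases heX : e ∈ X
  · exact key X hX heX h3
  · have := key (E.erase g \ X) sdiff_subset (by simp [heg, he, heX])
      (by rwa [Finset.sdiff_sdiff_eq_self hX])
    rw [Finset.sdiff_sdiff_eq_self hX] at this
    omega

end Pool.Agent.P.MP_e0c037_lc
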