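import Pool.Agent.P.MP_e0c037_lc.Defs
import Pool.Agent.P.MP_e0c037_lc.K

/-! The component count of a multigraph satisfies the axioms `IsK`. -/

namespace Pool.Agent.P.MP_e0c037_lc

open Finset SimpleGraph

section general

variable {V β : Type} [Fintype V] [DecidableEq β] {G G' : SimpleGraph V}

theorem card_comp {lab : V → β} (h : ∀ x y, lab x = lab y ↔ G.Reachable x y) :
    Nat.card G.ConnectedComponent = (univ.image lab).card := by
  let φ : G.ConnectedComponent → β := Quot.lift lab fun x y hxy => (h x y).2 hxy
  have hinj : Function.Injective φ := by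
    intro c d
    induction c using ConnectedComponent.ind
    induction d using ConnectedComponent.ind
    intro hh
    exact ConnectedComponent.sound ((h _ _).1 hh)
  have hr : Set.range φ = ↑(univ.image lab) := by
    ext z
    simp only [Set.mem_range, coe_image, coe_univ, Set.image_univ]
    constructor
    · rintro ⟨c, rfl⟩
      induction c using ConnectedComponent.ind with
      | _ x => exact ⟨x, rfl⟩
    · rintro ⟨x, rfl⟩
      exact ⟨G.connectedComponentMk x, rfl⟩
  rw [← Nat.card_range_of_injective hinj, hr]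
  exact Nat.card_eq_finsetCard _

omit [Fintype V] in
theorem lab_update {lab : V → β} (h : ∀ x y, lab x = lab y ↔ G.Reachable x y) {a b : V}
    (hG : ∀ x y, G'.Adj x y ↔ G.Adj x y ∨ (x ≠ y ∧ ((x = a ∧ y = b) ∨ (x = b ∧ y = a)))) (x y : V) :
    (if lab x = lab b then lab a else lab x) = (if lab y = lab b then lab a else lab y) ↔
      G'.Reachable x y := by
  have hle : G ≤ G' := fun x y hxy => (hG x y).2 (Or.inl hxy)
  have h' : ∀ x y, lab x = lab y → G'.Reachable x y := fun x y hxy => ((h x y).1 hxy).mono hle
  have hab : G'.Reachable a b := by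
    by_cases e : a = b
    · rw [e]
    · exact Adj.reachable ((hG a b).2 (Or.inr ⟨e, Or.inl ⟨rfl, rfl⟩⟩))
  constructor
  · intro hh
    split_ifs at hh with h1 h2 h2
    · exact h' _ _ (h1.trans h2.symm)
    · exact ((h' _ _ h1).trans hab.symm).trans (h' _ _ hh)
    · exact ((h' _ _ hh).trans hab).trans (h' _ _ h2).symm
    · exact h' _ _ hh
  · intro hh
    rw [reachable_iff_reflTransGen] at hh
    induction hh with
    | refl => rfl
    | tail _ hyz ih =>
      rw [ih]
      rcases (hG _ _).1 hyz with h1 | ⟨-, ⟨rfl, rfl⟩ | ⟨rfl, rfl⟩⟩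
      · rw [(h _ _).2 h1.reachable]
      · simp
      · simp

theorem card_update {a b : V}
    (hG : ∀ x y, G'.Adj x y ↔ G.Adj x y ∨ (x ≠ y ∧ ((x = a ∧ y = b) ∨ (x = b ∧ y = a)))) :
    (G.Reachable a b → Nat.card G'.ConnectedComponent = Nat.card G.ConnectedComponent) ∧
    (¬ G.Reachable a b → Nat.card G'.ConnectedComponent + 1 = Nat.card G.ConnectedComponent) := by
  classical
  have h : ∀ x y, G.connectedComponentMk x = G.connectedComponentMk y ↔ G.Reachable x y :=
    fun x y => ConnectedComponent.eq
  rw [card_comp h, card_comp (lab_update h hG)]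
  constructor
  · intro hab
    congr 2
    funext x
    split_ifs with h1
    · rw [h1, (h _ _).2 hab]
    · rfl
  · intro hab
    rw [← h] at hab
    rw [← card_erase_add_one (mem_image_of_mem G.connectedComponentMk (mem_univ b))]
    congr 2
    ext z
    simp only [mem_image, mem_univ, true_and, mem_erase]
    constructor
    · rintro ⟨x, rfl⟩
      split_ifs with h1
      · exact ⟨hab, a, rfl⟩
      · exact ⟨h1, x, rfl⟩
    · rintro ⟨h1, x, rfl⟩
      exact ⟨x, if_neg h1⟩

end general

variable {n : ℕ} {L : List (ℕ × ℕ)}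

theorem adj_insert {A : Finset ℕ} {i : ℕ} {a b : Fin n} (h : L[i]? = some (a.val, b.val))
    (x y : Fin n) : (spanning n L (insert i A)).Adj x y ↔ (spanning n L A).Adj x y ∨
      (x ≠ y ∧ ((x = a ∧ y = b) ∨ (x = b ∧ y = a))) := by
  simp only [spanning, fromRel_adj, mem_insert, exists_eq_or_imp, h, Option.some.injEq,
    Prod.mk.injEq, Fin.val_inj, eq_comm (a := a), eq_comm (a := b)]
  generalize (∃ a ∈ A, L[a]? = some (x.val, y.val)) = P
  generalize (∃ a ∈ A, L[a]? = some (y.val, x.val)) = Q
  tauto

theorem spanning_insert {A : Finset ℕ} {i : ℕ} (h : ¬ ∃ a b : Fin n, L[i]? = some (a.val, b.val)) :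
    spanning n L (insert i A) = spanning n L A := by
  push Not at h
  ext x y
  simp only [spanning, fromRel_adj, mem_insert, exists_eq_or_imp, h, false_or]

theorem spanning_mono {A B : Finset ℕ} (h : A ⊆ B) : spanning n L A ≤ spanning n L B := by
  intro x y
  simp only [spanning, fromRel_adj]
  rintro ⟨h1, ⟨i, hi, h2⟩ | ⟨i, hi, h2⟩⟩
  · exact ⟨h1, Or.inl ⟨i, h hi, h2⟩⟩
  · exact ⟨h1, Or.inr ⟨i, h hi, h2⟩⟩

theorem comps_insert {A : Finset ℕ} {i : ℕ} {a b : Fin n} (h : L[i]? = some (a.val, b.val)) :
    ((spanning n L A).Reachable a b → comps n L (insert i A) = comps n L A) ∧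
    (¬ (spanning n L A).Reachable a b → comps n L (insert i A) + 1 = comps n L A) :=
  card_update (adj_insert h)

theorem isK_comps (n : ℕ) (L : List (ℕ × ℕ)) : IsK (comps n L) := by
  have key : ∀ A i, comps n L (insert i A) = comps n L A ∨
      comps n L (insert i A) + 1 = comps n L A := by
    intro A i
    by_cases h : ∃ a b : Fin n, L[i]? = some (a.val, b.val)
    · obtain ⟨a, b, h⟩ := h
      have := comps_insert (A := A) h
      tauto
    · left; unfold comps; rw [spanning_insert h]
  refine ⟨fun A e => by have := key A e; omega, fun A e => by have := key A e; omega, ?_⟩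
  intro A B i hAB h1
  by_cases h : ∃ a b : Fin n, L[i]? = some (a.val, b.val)
  · obtain ⟨a, b, h⟩ := h
    refine (comps_insert h).1 (Reachable.mono (spanning_mono hAB) ?_)
    by_contra hn
    have := (comps_insert (A := A) h).2 hn
    omega
  · unfold comps; rw [spanning_insert h]

theorem reach_empty (x y : Fin n) : x.val = y.val ↔ (spanning n L ∅).Reachable x y := by
  have : spanning n L ∅ = ⊥ := by
    ext x y; simp [spanning]
  rw [this, reachable_bot, Fin.val_inj]

theorem comps_empty : comps n L ∅ = n := by
  unfold comps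
  rw [card_comp (lab := fun x : Fin n => x.val) reach_empty,
    card_image_of_injective _ Fin.val_injective]
  simp

end Pool.Agent.P.MP_e0c037_lc
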