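import Pool.Agent.P.MP_e0c037_lc.Z

/-! The sign of the polynomial of a large connected component count. -/

set_option linter.unusedSectionVars false

namespace Pool.Agent.P.MP_e0c037_lc

open Finset Function

variable {α : Type} [DecidableEq α]

/-- The big interval of weights. -/
def Vw (ρ b v : ℝ) : Prop := -ρ ≤ 1 + v ∧ 1 + v ≤ b

/-- A graded system of weight sets. -/
structure Sys (q ρ b ε : ℝ) (J : ℕ) (I : ℕ → ℝ → Prop) : Prop where
  q0 : 0 < q
  eps : ε = 1 ∨ ε = -1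
  c0 : 0 < ε * (1 - q)
  r0 : 0 ≤ ρ
  r1 : ρ < 1
  b0 : 0 ≤ b
  b1 : b < 1
  par : ∀ v w, Vw ρ b v → Vw ρ b w → Vw ρ b (v + w + v * w)
  ser : ∀ v w, Vw ρ b v → Vw ρ b w → q + v + w < 0 ∧ Vw ρ b (v * w / (q + v + w))
  sub : ∀ g ≤ J, ∀ v, I g v → Vw ρ b v
  gpar : ∀ g < J, ∀ h < J, ∀ v w, I g v → I h w → I (max g h + 1) (v + w + v * w)
  gser : ∀ g < J, ∀ h < J, ∀ v w, I g v → I h w → I (max g h + 1) (v * w / (q + v + w))
  top : ∀ v y, I J v → -ρ ≤ y → y ≤ b → ε * (1 + v) * y ≤ ε * (1 - q)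

variable {q ρ b ε : ℝ} {J : ℕ} {I : ℕ → ℝ → Prop}

theorem Sys.q1 (S : Sys q ρ b ε J I) : q ≠ 1 := fun h => by
  have := S.c0; rw [h] at this; simp at this

theorem card_two {E : Finset α} {f : α} (hf : f ∈ E) (h : E.card = 2) :
    ∃ e, e ≠ f ∧ E = {e, f} := by
  obtain ⟨x, y, hxy, rfl⟩ := card_eq_two.1 h
  rcases mem_insert.1 hf with rfl | hf
  · exact ⟨y, hxy.symm, pair_comm _ _⟩
  · rw [mem_singleton.1 hf]; exact ⟨x, hxy, rfl⟩

theorem claimP (S : Sys q ρ b ε J I) (n : ℕ) : ∀ (k : Finset α → ℕ) (v : α → ℝ) (E : Finset α)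
    (f : α), IsK k → Conn k E → f ∈ E → E.card = n + 2 → (∀ e ∈ E, e ≠ f → Vw ρ b (v e)) →
    0 < al q k v E f ∧ -ρ * al q k v E f ≤ ga q k v E f ∧ ga q k v E f ≤ b * al q k v E f := by
  induction n with
  | zero =>
    intro k v E f h hc hf hn hv
    obtain ⟨e, hef, rfl⟩ := card_two hf hn
    obtain ⟨m, h1, h2⟩ := al_two (v := v) h hef hc S.q1
    obtain ⟨v1, v2⟩ := hv e (by simp) hef
    have := pow_pos S.q0 m
    rw [h1, h2]
    exact ⟨this, mul_le_mul_of_nonneg_right v1 this.le, mul_le_mul_of_nonneg_right v2 this.le⟩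
  | succ n ih =>
    intro k v E f h hc hf hn hv
    rcases step h hc hf (by omega) q with ⟨e, he, hef, c1, c2⟩ |
      ⟨e, he, g, hg, heg, hef, hgf, k', h', c1, hh⟩
    · obtain ⟨s1, s2⟩ := hc.single h he hf hef
      obtain ⟨a1, a2⟩ := al_dc (q := q) (v := v) he hef s1 s2
      have hf' : f ∈ E.erase e := mem_erase.2 ⟨hef.symm, hf⟩
      have hn' : (E.erase e).card = n + 2 := by rw [card_erase_of_mem he]; omega
      have hv' : ∀ x ∈ E.erase e, x ≠ f → Vw ρ b (v x) := fun x hx => hv x (mem_of_mem_erase hx)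
      obtain ⟨p1, p2, p3⟩ := ih k v _ f h c1 hf' hn' hv'
      obtain ⟨p4, p5, p6⟩ := ih _ v _ f (h.con e) c2 hf' hn' hv'
      have hneg : 0 < -v e := by have := (hv e he hef).2; have := S.b1; linarith
      rw [a1, a2]
      refine ⟨?_, ?_, ?_⟩
      · nlinarith [mul_pos hneg p4]
      · nlinarith [mul_le_mul_of_nonneg_left p5 hneg.le]
      · nlinarith [mul_le_mul_of_nonneg_left p6 hneg.le]
    · have hf' : f ∈ E.erase g := mem_erase.2 ⟨hgf.symm, hf⟩
      have hn' : (E.erase g).card = n + 2 := by rw [card_erase_of_mem hg]; omega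
      have hv' : ∀ w, Vw ρ b w → ∀ x ∈ E.erase g, x ≠ f → Vw ρ b (update v e w x) := by
        intro w hw x hx hxf
        by_cases hxe : x = e
        · rw [hxe, update_self]; exact hw
        · rw [update_of_ne hxe]; exact hv x (mem_of_mem_erase hx) hxf
      rcases hh with hh | hh
      · obtain ⟨a1, a2⟩ := hh v
        rw [a1, a2]
        exact ih k' _ _ f h' c1 hf' hn' (hv' _ (S.par _ _ (hv e he hef) (hv g hg hgf)))
      · obtain ⟨t1, t2⟩ := S.ser _ _ (hv e he hef) (hv g hg hgf)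
        obtain ⟨a1, a2⟩ := hh v t1.ne
        obtain ⟨p1, p2, p3⟩ := ih k' _ _ f h' c1 hf' hn' (hv' _ t2)
        have hneg : 0 < -(q + v e + v g) := by linarith
        rw [a1, a2]
        refine ⟨mul_pos hneg p1, ?_, ?_⟩
        · nlinarith [mul_le_mul_of_nonneg_left p2 hneg.le]
        · nlinarith [mul_le_mul_of_nonneg_left p3 hneg.le]

theorem claimP' (S : Sys q ρ b ε J I) {k : Finset α → ℕ} {v : α → ℝ} {E : Finset α} {f : α}
    (h : IsK k) (hc : Conn k E) (hf : f ∈ E) (hn : 2 ≤ E.card)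
    (hv : ∀ e ∈ E, e ≠ f → Vw ρ b (v e)) :
    0 < al q k v E f ∧ -ρ * al q k v E f ≤ ga q k v E f ∧ ga q k v E f ≤ b * al q k v E f :=
  claimP S (E.card - 2) k v E f h hc hf (by omega) hv

theorem top_nonneg (S : Sys q ρ b ε J I) {k : Finset α → ℕ} {v : α → ℝ} {E : Finset α} {e : α}
    (h : IsK k) (hc : Conn k E) (he : e ∈ E) (hn : 2 ≤ E.card)
    (hv : ∀ x ∈ E, Vw ρ b (v x)) (ht : I J (v e)) : 0 ≤ ε * (sg k E * Zk q k v E) := by
  obtain ⟨p1, p2, p3⟩ := claimP' S h hc he hn fun x hx _ => hv x hx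
  have := S.top (v e) (ga q k v E e / al q k v E e) ht (by rwa [le_div_iff₀ p1])
    (by rwa [div_le_iff₀ p1])
  rw [← mul_div_assoc, div_le_iff₀ p1] at this
  rw [Z_eq S.q1 he]
  linarith

theorem sum_merge {E : Finset α} {e g f : α} (gr : α → ℕ) (he : e ∈ E) (hg : g ∈ E) (heg : e ≠ g)
    (hef : e ≠ f) (hgf : g ≠ f) :
    ∑ x ∈ E.erase f, 2 ^ gr x ≤
      ∑ x ∈ (E.erase g).erase f, 2 ^ update gr e (max (gr e) (gr g) + 1) x := by
  have hg' : g ∈ E.erase f := mem_erase.2 ⟨hgf, hg⟩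
  have he' : e ∈ (E.erase f).erase g := by simp [he, heg, hef]
  rw [erase_right_comm, ← add_sum_erase _ _ hg', ← add_sum_erase _ _ he',
    ← add_sum_erase _ _ he', update_self]
  have a1 : ∑ x ∈ ((E.erase f).erase g).erase e, 2 ^ update gr e (max (gr e) (gr g) + 1) x =
      ∑ x ∈ ((E.erase f).erase g).erase e, 2 ^ gr x :=
    sum_congr rfl fun x hx => by rw [update_of_ne (ne_of_mem_erase hx)]
  have a2 : 2 ^ gr e ≤ 2 ^ max (gr e) (gr g) := Nat.pow_le_pow_right (by norm_num) (le_max_left _ _)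
  have a3 : 2 ^ gr g ≤ 2 ^ max (gr e) (gr g) :=
    Nat.pow_le_pow_right (by norm_num) (le_max_right _ _)
  rw [a1, pow_succ]
  omega

theorem boundR (S : Sys q ρ b ε J I) (n : ℕ) : ∀ (k : Finset α → ℕ) (v : α → ℝ) (gr : α → ℕ)
    (E : Finset α) (f : α) (m : ℕ), IsK k → Conn k E → f ∈ E → E.card = n + 2 → Vw ρ b (v f) →
    (∀ e ∈ E, e ≠ f → gr e ≤ J ∧ I (gr e) (v e)) → m * 2 ^ J ≤ ∑ x ∈ E.erase f, 2 ^ gr x →
    -(ε * (sg k E * Zk q k v E)) ≤ max ρ b ^ m * al q k v E f := by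
  have hk0 : 0 ≤ max ρ b := S.r0.trans (le_max_left _ _)
  induction n using Nat.strong_induction_on with
  | _ n ih =>
  intro k v gr E f m h hc hf hn hvf hgr hm
  have hv : ∀ x ∈ E, Vw ρ b (v x) := fun x hx => by
    by_cases hxf : x = f
    · rwa [hxf]
    · exact S.sub _ (hgr x hx hxf).1 _ (hgr x hx hxf).2
  obtain ⟨p1, p2, p3⟩ := claimP' S h hc hf (by omega) fun x hx _ => hv x hx
  by_cases htop : ∃ e ∈ E, e ≠ f ∧ gr e = J
  · obtain ⟨e, he, hef, hJ⟩ := htop
    have := top_nonneg S h hc he (by omega) hv (hJ ▸ (hgr e he hef).2)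
    have := mul_pos (pow_pos (lt_of_lt_of_le zero_lt_one le_rfl) m) p1
    have := mul_nonneg (pow_nonneg hk0 m) p1.le
    linarith
  have hlt : ∀ e ∈ E, e ≠ f → gr e < J := fun e he hef =>
    lt_of_le_of_ne (hgr e he hef).1 fun hh => htop ⟨e, he, hef, hh⟩
  rcases Nat.eq_zero_or_pos m with rfl | hm0
  · rw [Z_eq S.q1 hf, pow_zero, one_mul]
    have a0 := mul_pos S.c0 p1
    have a1 : |1 + v f| ≤ 1 :=
      abs_le.2 ⟨by linarith [hvf.1, S.r1], by linarith [hvf.2, S.b1]⟩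
    have a2 : |ga q k v E f| ≤ al q k v E f :=
      abs_le.2 ⟨by nlinarith [S.r1], by nlinarith [S.b1]⟩
    have a3 : |(1 + v f) * ga q k v E f| ≤ al q k v E f := by
      rw [abs_mul]; nlinarith [abs_nonneg (1 + v f), abs_nonneg (ga q k v E f)]
    obtain ⟨a4, a5⟩ := abs_le.1 a3
    rcases S.eps with rfl | rfl <;> linarith
  obtain ⟨m, rfl⟩ : ∃ m', m = m' + 1 := ⟨m - 1, by omega⟩
  rcases Nat.eq_zero_or_pos n with rfl | hn0
  · exfalso
    obtain ⟨e, hef, rfl⟩ := card_two hf hn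
    have e1 : ({e, f} : Finset α).erase f = {e} := by
      rw [pair_comm, erase_insert (by simpa using hef.symm)]
    rw [e1, sum_singleton] at hm
    have := Nat.pow_lt_pow_right (by norm_num : 1 < 2) (hlt e (by simp) hef)
    rw [Nat.succ_mul] at hm
    omega
  rcases step h hc hf (by omega) q with ⟨e, he, hef, c1, c2⟩ |
    ⟨e, he, g, hg, heg, hef, hgf, k', h', c1, hh⟩
  · obtain ⟨s1, s2⟩ := hc.single h he hf hef
    obtain ⟨a1, -⟩ := al_dc (q := q) (v := v) he hef s1 s2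
    have hf' : f ∈ E.erase e := mem_erase.2 ⟨hef.symm, hf⟩
    have hn' : (E.erase e).card = (n - 1) + 2 := by rw [card_erase_of_mem he]; omega
    have hv' : ∀ x ∈ E.erase e, x ≠ f → Vw ρ b (v x) := fun x hx _ => hv x (mem_of_mem_erase hx)
    have hgr' : ∀ x ∈ E.erase e, x ≠ f → gr x ≤ J ∧ I (gr x) (v x) :=
      fun x hx => hgr x (mem_of_mem_erase hx)
    have hm' : m * 2 ^ J ≤ ∑ x ∈ (E.erase e).erase f, 2 ^ gr x := by
      rw [← add_sum_erase _ _ (mem_erase.2 ⟨hef, he⟩), Nat.succ_mul, erase_right_comm] at hm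
      have := Nat.pow_lt_pow_right (by norm_num : 1 < 2) (hlt e he hef)
      omega
    have b1 := ih (n - 1) (by omega) k v gr _ f m h c1 hf' hn' hvf hgr' hm'
    have b2 := ih (n - 1) (by omega) _ v gr _ f m (h.con e) c2 hf' hn' hvf hgr' hm'
    obtain ⟨p4, -⟩ := claimP' S h c1 hf' (by omega) hv'
    obtain ⟨p5, -⟩ := claimP' S (h.con e) c2 hf' (by omega) hv'
    obtain ⟨p6, -⟩ := claimP' S h hc he (by omega) fun x hx _ => hv x hx
    obtain ⟨v1, v2⟩ := hv e he
    have hneg : 0 < -v e := by have := S.b1; linarith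
    have a0 := mul_pos S.c0 p6
    have hp := pow_nonneg hk0 m
    rw [sg_del s2] at b1
    rw [sg_con he s1] at b2
    rcases le_or_gt 0 (1 + v e) with hy | hy
    · have d1 : -(ε * (sg k E * Zk q k v E)) ≤
          (1 + v e) * -(ε * (sg k E * Zk q k v (E.erase e))) := by
        rw [Z_del S.q1 he]; nlinarith [mul_pos hneg a0]
      have d2 : al q k v (E.erase e) f ≤ al q k v E f := by
        rw [a1]; nlinarith [mul_pos hneg p5]
      calc _ ≤ _ := d1
        _ ≤ (1 + v e) * (max ρ b ^ m * al q k v (E.erase e) f) := mul_le_mul_of_nonneg_left b1 hy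
        _ ≤ max ρ b * (max ρ b ^ m * al q k v E f) :=
          mul_le_mul (v2.trans (le_max_right _ _)) (mul_le_mul_of_nonneg_left d2 hp)
            (mul_nonneg hp p4.le) hk0
        _ = _ := by ring
    · have d1 : -(ε * (sg k E * Zk q k v E)) ≤
          -(1 + v e) * -(ε * (-sg k E * Zk q (con k e) v (E.erase e))) := by
        rw [Z_con S.q1 he]; nlinarith
      have d2 : al q (con k e) v (E.erase e) f ≤ al q k v E f := by
        rw [a1]; nlinarith [mul_pos (neg_pos.2 hy) p5]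
      calc _ ≤ _ := d1
        _ ≤ -(1 + v e) * (max ρ b ^ m * al q (con k e) v (E.erase e) f) :=
          mul_le_mul_of_nonneg_left b2 (by linarith)
        _ ≤ max ρ b * (max ρ b ^ m * al q k v E f) :=
          mul_le_mul (le_trans (by linarith) (le_max_left _ _)) (mul_le_mul_of_nonneg_left d2 hp)
            (mul_nonneg hp p5.le) hk0
        _ = _ := by ring
  · have hf' : f ∈ E.erase g := mem_erase.2 ⟨hgf.symm, hf⟩
    have hn' : (E.erase g).card = (n - 1) + 2 := by rw [card_erase_of_mem hg]; omega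
    have l1 := hlt e he hef
    have l2 := hlt g hg hgf
    have key : ∀ w, I (max (gr e) (gr g) + 1) w →
        -(ε * ((1 - q) * al q k' (update v e w) (E.erase g) f -
          (1 + v f) * ga q k' (update v e w) (E.erase g) f)) ≤
          max ρ b ^ (m + 1) * al q k' (update v e w) (E.erase g) f := by
      intro w hw
      have := ih (n - 1) (by omega) k' (update v e w) (update gr e (max (gr e) (gr g) + 1)) _ f
        (m + 1) h' c1 hf' hn' (by rwa [update_of_ne hef.symm]) (by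
          intro x hx hxf
          by_cases hxe : x = e
          · rw [hxe, update_self, update_self]
            exact ⟨Nat.succ_le_of_lt (max_lt l1 l2), hw⟩
          · rw [update_of_ne hxe, update_of_ne hxe]; exact hgr x (mem_of_mem_erase hx) hxf)
        (hm.trans (sum_merge gr he hg heg hef hgf))
      rwa [Z_eq S.q1 hf', update_of_ne hef.symm] at this
    rw [Z_eq S.q1 hf]
    rcases hh with hh | hh
    · obtain ⟨a1, a2⟩ := hh v
      rw [a1, a2]
      exact key _ (S.gpar _ l1 _ l2 _ _ (hgr e he hef).2 (hgr g hg hgf).2)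
    · obtain ⟨t1, -⟩ := S.ser _ _ (hv e he) (hv g hg)
      obtain ⟨a1, a2⟩ := hh v t1.ne
      have := mul_le_mul_of_nonneg_left
        (key _ (S.gser _ l1 _ l2 _ _ (hgr e he hef).2 (hgr g hg hgf).2))
        (by linarith : 0 ≤ -(q + v e + v g))
      rw [a1, a2]
      linarith

theorem sign_large (S : Sys q ρ b ε J I) {δ : ℝ} (hδ : 0 < δ)
    (hsc : ∀ v, I 0 v → Vw ρ b ((1 + δ) * (1 + v) - 1)) :
    ∃ M : ℕ, ∀ (α : Type) [DecidableEq α] (k : Finset α → ℕ) (v : α → ℝ) (E : Finset α),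
      IsK k → Conn k E → M ≤ E.card → (∀ e ∈ E, I 0 (v e)) →
      0 < ε * (sg k E * Zk q k v E) := by
  obtain ⟨m, hm⟩ := exists_pow_lt_of_lt_one (mul_pos hδ S.c0) (max_lt S.r1 S.b1)
  refine ⟨m * 2 ^ J + 2, fun α _ k v E h hc hM hv => ?_⟩
  obtain ⟨f, hf⟩ : E.Nonempty := card_pos.1 (by omega)
  have b1 := boundR S (E.card - 2) k (update v f ((1 + δ) * (1 + v f) - 1)) (fun _ => 0) E f m h hc
    hf (by omega) (by rw [update_self]; exact hsc _ (hv f hf))
    (fun e he hef => ⟨Nat.zero_le _, by rw [update_of_ne hef]; exact hv e he⟩)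
    (by rw [sum_const, card_erase_of_mem hf]; simp; omega)
  obtain ⟨p1, -⟩ := claimP' S (v := v) h hc hf (by omega)
    fun x hx _ => S.sub 0 (Nat.zero_le _) _ (hv x hx)
  obtain ⟨a1, a2⟩ := al_update (q := q) (k := k) (v := v) (E := E) (f := f)
    ((1 + δ) * (1 + v f) - 1)
  rw [Z_eq S.q1 hf, a1, a2, update_self] at b1
  rw [Z_eq S.q1 hf]
  have b2 := mul_lt_mul_of_pos_right hm p1
  refine pos_of_mul_pos_left (b := 1 + δ) ?_ (by linarith)
  nlinarith

end Pool.Agent.P.MP_e0c037_lc
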