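import Pool.Agent.P.MP_e0c037_lc.Defs2
import Pool.Agent.P.MP_e0c037_lc.Graph
import Pool.Agent.P.MP_e0c037_lc.Sep
import Pool.Agent.P.MP_e0c037_lc.Real

/-! Two-connected multigraphs have connected component counts. -/

namespace Pool.Agent.P.MP_e0c037_lc

open Finset SimpleGraph

theorem Sp.modular {α : Type} [DecidableEq α] {k : Finset α → ℕ} {E S A B : Finset α} (h : IsK k)
    (hS : S ⊆ E) (hs : Sp k E S) (hA : A ⊆ S) (hB : B ⊆ E \ S) : k (A ∪ B) + k ∅ = k A + k B := by
  have h1 := hs.restrict h hS (union_subset (hA.trans hS) (hB.trans sdiff_subset))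
  have hB' : ∀ x ∈ B, x ∉ S := fun x hx => (mem_sdiff.1 (hB hx)).2
  have e1 : S ∩ (A ∪ B) = A := by
    ext x; simp only [mem_union, mem_inter]; have := @hA x; have := hB' x; tauto
  have e2 : (A ∪ B) \ A = B := by
    ext x; simp only [mem_union, mem_sdiff]; have := @hA x; have := hB' x; tauto
  unfold Sp at h1
  rw [e1, e2] at h1
  omega

variable {n : ℕ} {L : List (ℕ × ℕ)}

/-- The edge in position `i` has ends `x, y`. -/
def Ends (L : List (ℕ × ℕ)) (i : ℕ) (x y : Fin n) : Prop :=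
  L[i]? = some (x.val, y.val) ∨ L[i]? = some (y.val, x.val)

theorem adj_iff {A : Finset ℕ} {x y : Fin n} :
    (spanning n L A).Adj x y ↔ x ≠ y ∧ ∃ i ∈ A, Ends L i x y := by
  simp only [spanning, fromRel_adj, Ends, and_or_left, exists_or]

theorem Ends.symm {i : ℕ} {x y : Fin n} (h : Ends L i x y) : Ends L i y x := Or.symm h

theorem Ends.eq {i : ℕ} {x y z t : Fin n} (h : Ends L i x y) (h' : Ends L i z t) :
    z = x ∨ z = y := by
  rcases h with h | h <;> rcases h' with h' | h' <;> rw [h] at h' <;>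
    simp only [Option.some.injEq, Prod.mk.injEq, Fin.val_inj] at h' <;> simp [h'.1, h'.2]

theorem Ends.comps {A : Finset ℕ} {i : ℕ} {a b : Fin n} (h : Ends L i a b) :
    ((spanning n L A).Reachable a b → comps n L (insert i A) = comps n L A) ∧
    (¬ (spanning n L A).Reachable a b → comps n L (insert i A) + 1 = comps n L A) := by
  rcases h with h | h
  · exact comps_insert h
  · rw [reachable_comm]; exact comps_insert h

theorem conn_of_two (hL : ∀ e ∈ L, e.1 < n ∧ e.2 < n) (h2 : TwoConnected n L) :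
    Conn (comps n L) (range L.length) := by
  classical
  obtain ⟨hl, hc, hw⟩ := h2
  have hk := isK_comps n L
  have ends : ∀ i ∈ range L.length, ∃ x y : Fin n, Ends L i x y := fun i hi => by
    have hi' := mem_range.1 hi
    obtain ⟨ha, hb⟩ := hL _ (List.getElem_mem hi')
    exact ⟨⟨_, ha⟩, ⟨_, hb⟩, Or.inl (List.getElem?_eq_getElem hi')⟩
  have ne : ∀ i (x y : Fin n), Ends L i x y → x ≠ y := by
    rintro i x y (h | h) rfl <;> exact hl _ (List.mem_of_getElem? h) rfl
  refine conn_of_sp hk fun S hS ⟨i0, hi0⟩ ⟨j0, hj0⟩ hs => ?_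
  have ex : ∃ w a b : Fin n, ∃ i ∈ S, ∃ j ∈ range L.length \ S, Ends L i w a ∧ Ends L j w b := by
    by_contra hn
    obtain ⟨a0, b0, e0⟩ := ends i0 (hS hi0)
    obtain ⟨c0, d0, e1⟩ := ends j0 (mem_sdiff.1 hj0).1
    have key : ∀ x, (spanning n L (range L.length)).Reachable a0 x → ∃ i ∈ S, ∃ y, Ends L i x y := by
      intro x hx
      rw [reachable_iff_reflTransGen] at hx
      induction hx with
      | refl => exact ⟨i0, hi0, b0, e0⟩
      | @tail x y _ hxy ih =>
        obtain ⟨i, hi, z, hz⟩ := ih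
        obtain ⟨-, j, hj, e⟩ := adj_iff.1 hxy
        by_cases hjS : j ∈ S
        · exact ⟨j, hjS, x, e.symm⟩
        · exact absurd ⟨x, z, y, i, hi, j, mem_sdiff.2 ⟨hj, hjS⟩, hz, e⟩ hn
    obtain ⟨i, hi, z, hz⟩ := key c0 (hc.preconnected a0 c0)
    exact hn ⟨c0, z, d0, i, hi, j0, hj0, hz, e1⟩
  obtain ⟨w, a, b, i, hi, j, hj, ea, eb⟩ := ex
  let F := (range L.length).filter fun l => ∀ y, ¬ Ends L l w y
  have r1 : ∀ x y : {x | x ≠ w}, ((spanning n L (range L.length)).induce {x | x ≠ w}).Reachable x y →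
      (spanning n L F).Reachable x y := by
    intro x y hxy
    rw [reachable_iff_reflTransGen] at hxy
    induction hxy with
    | refl => rfl
    | @tail y z _ hyz ih =>
      obtain ⟨h1, l, hl', e⟩ := adj_iff.1 (show (spanning n L _).Adj y.val z.val from hyz)
      refine ih.trans (Adj.reachable (adj_iff.2 ⟨h1, l, mem_filter.2 ⟨hl', fun t ht => ?_⟩, e⟩))
      rcases e.eq ht with h | h
      · exact y.2 h.symm
      · exact z.2 h.symm
  have r2 : (spanning n L F).Reachable a b :=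
    r1 ⟨a, (ne _ _ _ ea).symm⟩ ⟨b, (ne _ _ _ eb).symm⟩ (hw w _ _)
  have r3 : (spanning n L (insert i F)).Reachable w b :=
    (Adj.reachable (adj_iff.2 ⟨ne _ _ _ ea, i, mem_insert_self _ _, ea⟩)).trans
      (r2.mono (spanning_mono (subset_insert _ _)))
  have r4 : ¬ (spanning n L (F \ S)).Reachable w b := by
    intro h
    rw [reachable_iff_reflTransGen] at h
    rcases h.cases_head with h | ⟨c, h, -⟩
    · exact ne _ _ _ eb h
    · obtain ⟨-, l, hl', e⟩ := adj_iff.1 h
      exact (mem_filter.1 (mem_sdiff.1 hl').1).2 c e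
  have c1 := eb.comps.1 r3
  have c2 := eb.comps.2 r4
  have hA : insert i (F ∩ S) ⊆ S := insert_subset hi inter_subset_right
  have hB : F \ S ⊆ range L.length \ S := sdiff_subset_sdiff (filter_subset _ _) Subset.rfl
  have m1 := hs.modular hk hS hA hB
  have m2 := hs.modular hk hS hA (insert_subset hj hB)
  rw [union_insert] at m2
  rw [insert_union, union_comm, sdiff_union_inter] at m1 m2
  omega

theorem sign_two {q w lo hi : ℝ} (hq : q ∈ Set.Ioo (0 : ℝ) 1 ∪ Set.Ioo 1 (32 / 27))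
    (hw : IsMiddleRoot q w) (h1 : q / w < lo) (h2 : hi < w) :
    ∃ M : ℕ, ∀ (n : ℕ) (L : List (ℕ × ℕ)) (v : ℕ → ℝ), (∀ e ∈ L, e.1 < n ∧ e.2 < n) →
      TwoConnected n L → M ≤ L.length → (∀ i < L.length, v i ∈ Set.Icc lo hi) →
      0 < (-1) ^ (n + 1) * (1 - q) * multiZ n L q v := by
  have hq0 : 0 < q := by rcases hq with h | h <;> linarith [h.1]
  have hq1 : q ≠ 1 := by
    rcases hq with h | h
    · exact h.2.ne
    · exact h.1.ne'
  obtain ⟨hw, a, c, a1, a2, a3, a4⟩ := hw
  obtain ⟨r, r1, r2, r3, r4, r5⟩ := middle_root hq0 a1 a2 a3 hw a4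
  obtain ⟨M, hM⟩ := sign_diamond r1 hq1 r2 r3 (r4 ▸ h1) (r5 ▸ h2)
  refine ⟨M, fun n L v hL ht hlen hv => ?_⟩
  have := hM ℕ _ v _ (isK_comps n L) (conn_of_two hL ht) (by simpa)
    fun e he => hv e (mem_range.1 he)
  have e1 : comps n L (range L.length) = 1 := Nat.card_eq_one_iff_unique.2
    ⟨ht.2.1.preconnected.subsingleton_connectedComponent,
      ht.2.1.nonempty.map (connectedComponentMk _)⟩
  unfold sg at this
  rw [comps_empty, e1] at this
  change 0 < (-1) ^ (n + 1) * (1 - q) * Zk q (comps n L) v (range L.length)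
  rcases lt_or_gt_of_ne hq1 with h | h
  · rw [sign_pos (sub_pos.2 h)] at this
    simp only [SignType.coe_one, one_mul] at this
    nlinarith [mul_pos (sub_pos.2 h) this]
  · rw [sign_neg (sub_neg.2 h)] at this
    simp only [SignType.coe_neg_one] at this
    nlinarith [mul_pos (sub_pos.2 h) this]

end Pool.Agent.P.MP_e0c037_lc
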