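import Pool.Agent.P.MP_e0c037_lc.K

/-! The multivariate dichromatic polynomial of a component count; series and parallel reductions;
the two-terminal quantities `al`, `ga`. -/

set_option linter.unusedSectionVars false

namespace Pool.Agent.P.MP_e0c037_lc

open Finset Function

variable {α : Type} [DecidableEq α]

/-- Multivariate dichromatic polynomial. -/
noncomputable def Zk (q : ℝ) (k : Finset α → ℕ) (v : α → ℝ) (E : Finset α) : ℝ :=
  ∑ A ∈ E.powerset, q ^ k A * ∏ e ∈ A, v e

variable {q : ℝ} {k k' : Finset α → ℕ} {v v' : α → ℝ} {E F : Finset α} {e f g : α}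

theorem Zk_empty : Zk q k v ∅ = q ^ k ∅ := by simp [Zk]

theorem Zk_insert (he : e ∉ E) :
    Zk q k v (insert e E) = Zk q k v E + v e * Zk q (con k e) v E := by
  unfold Zk con
  rw [sum_powerset_insert he, mul_sum]
  congr 1
  refine sum_congr rfl fun A hA => ?_
  rw [prod_insert fun hh => he (mem_powerset.1 hA hh)]
  ring

theorem Zk_erase (he : e ∈ E) :
    Zk q k v E = Zk q k v (E.erase e) + v e * Zk q (con k e) v (E.erase e) := by
  rw [← Zk_insert (notMem_erase e E), insert_erase he]

theorem Zk_congr (hk : ∀ A ⊆ E, k A = k' A) (hv : ∀ e ∈ E, v e = v' e) :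
    Zk q k v E = Zk q k' v' E := by
  unfold Zk
  refine sum_congr rfl fun A hA => ?_
  rw [hk A (mem_powerset.1 hA), prod_congr rfl fun e he => hv e (mem_powerset.1 hA he)]

theorem Zk_shift (hk : ∀ A ⊆ E, k A = k' A + 1) : Zk q k v E = q * Zk q k' v E := by
  unfold Zk
  rw [mul_sum]
  refine sum_congr rfl fun A hA => ?_
  rw [hk A (mem_powerset.1 hA), pow_succ]
  ring

theorem con_comm (k : Finset α → ℕ) (e g : α) : con (con k e) g = con (con k g) e := by
  funext A; unfold con; rw [Finset.insert_comm]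

theorem Zk_update (he : e ∉ E) (w : ℝ) : Zk q k (update v e w) E = Zk q k v E :=
  Zk_congr (fun _ _ => rfl) fun a ha =>
    update_of_ne (by rintro rfl; exact he ha) _ _

theorem Zk_par (he : e ∈ F) (hg : g ∈ F) (heg : e ≠ g)
    (h1 : ∀ A, k (insert g (insert e A)) = k (insert e A))
    (h2 : ∀ A, k (insert e (insert g A)) = k (insert g A)) :
    Zk q k v F = Zk q k (update v e (v e + v g + v e * v g)) (F.erase g) := by
  have he' : e ∈ F.erase g := mem_erase.2 ⟨heg, he⟩
  have a1 : con k g = con k e := by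
    funext A; unfold con; rw [← h1, ← h2, Finset.insert_comm]
  have a2 : con (con k e) e = con k e := by
    funext A; unfold con; rw [insert_idem]
  rw [Zk_erase hg, Zk_erase (k := k) he', Zk_erase (k := con k g) he', Zk_erase he',
    Zk_update (notMem_erase _ _), Zk_update (notMem_erase _ _), update_self, a1, a2]
  ring

theorem Zk_ser (he : e ∈ F) (hg : g ∈ F) (heg : e ≠ g)
    (h1 : ∀ A ⊆ (F.erase g).erase e, k A = k (insert e A) + 1)
    (h2 : ∀ A ⊆ (F.erase g).erase e, k A = k (insert g A) + 1) (hq : q + v e + v g ≠ 0) :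
    Zk q k v F = (q + v e + v g) *
      Zk q (con k g) (update v e (v e * v g / (q + v e + v g))) (F.erase g) := by
  have he' : e ∈ F.erase g := mem_erase.2 ⟨heg, he⟩
  have a1 : Zk q k v ((F.erase g).erase e) = q * Zk q (con k g) v ((F.erase g).erase e) :=
    Zk_shift h2
  have a2 : Zk q (con k e) v ((F.erase g).erase e) = Zk q (con k g) v ((F.erase g).erase e) :=
    Zk_congr (fun A hA => by have := h1 A hA; have := h2 A hA; unfold con; omega) fun _ _ => rfl
  rw [Zk_erase hg, Zk_erase (k := k) he', Zk_erase (k := con k g) he', Zk_erase he',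
    Zk_update (notMem_erase _ _), Zk_update (notMem_erase _ _), update_self, a1, a2]
  field_simp
  ring

/-- The parity sign. -/
def sg (k : Finset α → ℕ) (E : Finset α) : ℝ := (-1) ^ (k ∅ + k E)

/-- Signed weight of the subsets not joining the ends of `f`. -/
noncomputable def al (q : ℝ) (k : Finset α → ℕ) (v : α → ℝ) (E : Finset α) (f : α) : ℝ :=
  -sg k E * (Zk q k v (E.erase f) - Zk q (con k f) v (E.erase f)) / (q - 1)

/-- Signed weight of the contraction of `f`. -/
noncomputable def ga (q : ℝ) (k : Finset α → ℕ) (v : α → ℝ) (E : Finset α) (f : α) : ℝ :=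
  -sg k E * Zk q (con k f) v (E.erase f)

theorem sg_del (h1 : k (E.erase e) = k E) : sg k (E.erase e) = sg k E := by
  unfold sg; rw [h1]

theorem sg_con (he : e ∈ E) (h1 : k {e} + 1 = k ∅) : sg (con k e) (E.erase e) = -sg k E := by
  unfold sg con
  rw [insert_erase he, insert_empty_eq, ← h1, add_right_comm, pow_succ]
  ring

theorem sg_sq : sg k E * sg k E = 1 := by
  unfold sg; rw [← mul_pow]; simp

theorem Z_eq (hq : q ≠ 1) (hf : f ∈ E) :
    sg k E * Zk q k v E = (1 - q) * al q k v E f - (1 + v f) * ga q k v E f := by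
  have : q - 1 ≠ 0 := sub_ne_zero.2 hq
  unfold al ga
  rw [Zk_erase hf]
  field_simp
  ring

theorem Z_del (hq : q ≠ 1) (he : e ∈ E) :
    sg k E * Zk q k v E =
      (1 + v e) * (sg k E * Zk q k v (E.erase e)) - (1 - q) * v e * al q k v E e := by
  have : q - 1 ≠ 0 := sub_ne_zero.2 hq
  unfold al
  rw [Zk_erase he]
  field_simp
  ring

theorem Z_con (hq : q ≠ 1) (he : e ∈ E) :
    sg k E * Zk q k v E =
      -(1 + v e) * (-sg k E * Zk q (con k e) v (E.erase e)) + (1 - q) * al q k v E e := by
  have : q - 1 ≠ 0 := sub_ne_zero.2 hq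
  unfold al
  rw [Zk_erase he]
  field_simp
  ring

theorem al_dc (he : e ∈ E) (hef : e ≠ f) (h1 : k {e} + 1 = k ∅) (h2 : k (E.erase e) = k E) :
    al q k v E f = al q k v (E.erase e) f - v e * al q (con k e) v (E.erase e) f ∧
    ga q k v E f = ga q k v (E.erase e) f - v e * ga q (con k e) v (E.erase e) f := by
  have he' : e ∈ E.erase f := mem_erase.2 ⟨hef, he⟩
  unfold al ga
  rw [sg_del h2, sg_con he h1, Zk_erase (k := k) he', Zk_erase (k := con k f) he', con_comm k f e,
    erase_right_comm]
  constructor <;> ring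

theorem al_update (w : ℝ) :
    al q k (update v f w) E f = al q k v E f ∧ ga q k (update v f w) E f = ga q k v E f := by
  unfold al ga
  simp only [Zk_update (notMem_erase f E), and_self]

theorem al_two (h : IsK k) (hef : e ≠ f) (hc : Conn k {e, f}) (hq : q ≠ 1) :
    ∃ n, al q k v {e, f} f = q ^ n ∧ ga q k v {e, f} f = (1 + v e) * q ^ n := by
  have hq' : q - 1 ≠ 0 := sub_ne_zero.2 hq
  have e1 : ({e, f} : Finset α).erase f = insert e ∅ := by
    ext x; simp only [mem_erase, mem_insert, mem_singleton, notMem_empty]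
    constructor
    · tauto
    · rintro (rfl | hh)
      · tauto
      · tauto
  obtain ⟨s1, -⟩ := hc.single h (e := e) (f := f) (by simp) (by simp) hef
  obtain ⟨s2, s3⟩ := hc.single h (e := f) (f := e) (by simp) (by simp) hef.symm
  rw [e1, insert_empty_eq] at s3
  refine ⟨k {e}, ?_⟩
  unfold al ga sg
  rw [e1, Zk_insert (notMem_empty e), Zk_insert (notMem_empty e)]
  simp only [Zk_empty, con, insert_empty_eq]
  have a1 : k {f} = k {e} := by omega
  have a2 : (-1 : ℝ) ^ (k {e} + 1 + k {e}) = -1 := Odd.neg_one_pow ⟨k {e}, by ring⟩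
  rw [pair_comm f e, ← s3, ← s1, a1, a2, pow_succ]
  constructor
  · field_simp; ring
  · ring

/-- One reduction step. -/
theorem step (h : IsK k) (hc : Conn k E) (hf : f ∈ E) (h2 : 2 ≤ E.card) (q : ℝ) :
    (∃ e ∈ E, e ≠ f ∧ Conn k (E.erase e) ∧ Conn (con k e) (E.erase e)) ∨
    (∃ e ∈ E, ∃ g ∈ E, e ≠ g ∧ e ≠ f ∧ g ≠ f ∧ ∃ k', IsK k' ∧ Conn k' (E.erase g) ∧
      ((∀ v, al q k v E f = al q k' (update v e (v e + v g + v e * v g)) (E.erase g) f ∧
          ga q k v E f = ga q k' (update v e (v e + v g + v e * v g)) (E.erase g) f) ∨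
       (∀ v, q + v e + v g ≠ 0 →
          al q k v E f = -(q + v e + v g) *
            al q k' (update v e (v e * v g / (q + v e + v g))) (E.erase g) f ∧
          ga q k v E f = -(q + v e + v g) *
            ga q k' (update v e (v e * v g / (q + v e + v g))) (E.erase g) f))) := by
  rcases reduction h hc hf h2 with hh | ⟨e, he, g, hg, heg, hef, hgf, hh⟩
  · exact Or.inl hh
  right
  obtain ⟨s1, s2⟩ := hc.single h he hg heg
  obtain ⟨s3, s4⟩ := hc.single h hg he heg.symm
  have he' : e ∈ E.erase f := mem_erase.2 ⟨hef, he⟩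
  have hg' : g ∈ E.erase f := mem_erase.2 ⟨hgf, hg⟩
  refine ⟨e, he, g, hg, heg, hef, hgf, ?_⟩
  rcases hh with hh | hh
  · refine ⟨k, h, conn_par h hc he hg heg hh, Or.inl fun v => ?_⟩
    have p1 := par_eq h s1 hh
    have p2 := par_eq h s3 (by rw [pair_comm]; exact hh)
    have c1 : ∀ A, con k f (insert g (insert e A)) = con k f (insert e A) := fun A => by
      unfold con
      rw [Finset.insert_comm f g, Finset.insert_comm f e, p1]
    have c2 : ∀ A, con k f (insert e (insert g A)) = con k f (insert g A) := fun A => by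
      unfold con
      rw [Finset.insert_comm f e, Finset.insert_comm f g, p2]
    unfold al ga
    rw [sg_del s4, Zk_par he' hg' heg p1 p2, Zk_par he' hg' heg c1 c2, erase_right_comm]
    exact ⟨rfl, rfl⟩
  · refine ⟨con k g, h.con g, conn_ser h hc he hg heg hh, Or.inr fun v hq => ?_⟩
    have e0 : insert g ((E.erase g).erase e) = E.erase e := by
      rw [erase_right_comm, insert_erase (mem_erase.2 ⟨heg.symm, hg⟩)]
    have e1 : insert e ((E.erase g).erase e) = E.erase g := insert_erase (mem_erase.2 ⟨heg, he⟩)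
    have p1 : ∀ A ⊆ (E.erase g).erase e, k A = k (insert e A) + 1 := fun A hA =>
      ser_eq h (by rw [e1]; omega) hA
    have p2 : ∀ A ⊆ (E.erase g).erase e, k A = k (insert g A) + 1 := fun A hA =>
      ser_eq h (by rw [e0]; omega) hA
    have i1 : ((E.erase f).erase g).erase e ⊆ (E.erase g).erase e :=
      erase_subset_erase _ (erase_subset_erase _ (erase_subset _ _))
    have i2 : ∀ A ⊆ ((E.erase f).erase g).erase e, insert f A ⊆ (E.erase g).erase e :=
      fun A hA => insert_subset (by simp [hf, hef.symm, hgf.symm]) (hA.trans i1)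
    have c1 : ∀ A ⊆ ((E.erase f).erase g).erase e, con k f A = con k f (insert e A) + 1 :=
      fun A hA => by unfold con; rw [Finset.insert_comm f e]; exact p1 _ (i2 A hA)
    have c2 : ∀ A ⊆ ((E.erase f).erase g).erase e, con k f A = con k f (insert g A) + 1 :=
      fun A hA => by unfold con; rw [Finset.insert_comm f g]; exact p2 _ (i2 A hA)
    unfold al ga
    rw [sg_con hg s3, Zk_ser he' hg' heg (fun A hA => p1 A (hA.trans i1))
      (fun A hA => p2 A (hA.trans i1)) hq, Zk_ser he' hg' heg c1 c2 hq, erase_right_comm,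
      con_comm k f g]
    constructor <;> ring

end Pool.Agent.P.MP_e0c037_lc
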